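import Mathlib
import Pool.Agent.H49.G.R_seed8.H373R2.T7.Tuple2

/-! Signed systems `a_i + σ_i F_i(n)`: from the von Mangoldt function to its model, for almost all `a`. -/

namespace Pool.Agent.H373R2.T7
open Finset Polynomial

/-- the values `a_i + σ_i F_i(n)` -/
def vl {k : ℕ} (F : Fin k → ℤ[X]) (σ : Fin k → ℤ) (a : Fin k → ℕ) (i : Fin k) (n : ℕ) : ℤ :=
  (a i : ℤ) + σ i * (F i).eval (n : ℤ)

/-- sizes of the shift variables -/
lemma size_log (D B : ℕ) (hB : 1 ≤ B) : ∃ N0 : ℕ, ∀ x : ℕ, N0 ≤ x → ∀ d A : ℕ, 1 ≤ d → d ≤ D → A ≤ B * x ^ d → x ^ d ≤ B * A →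
    Real.log x / 2 ≤ Real.log A ∧ Real.log A ≤ (D + 1) * Real.log x ∧ x ≤ B * A := by
  obtain ⟨n1, h1⟩ := ev_L' (2 * Real.log B + 1)
  refine ⟨max n1 3, fun x hx d A hd hdD hA1 hA2 => ?_⟩
  have hL := h1 x (le_trans (le_max_left _ _) hx)
  have hx3 : 3 ≤ x := le_trans (le_max_right _ _) hx
  have hx0 : (0 : ℝ) < x := by exact_mod_cast (by omega : 0 < x)
  have hBr : (1 : ℝ) ≤ B := by exact_mod_cast hB
  have hlB : 0 ≤ Real.log B := Real.log_nonneg hBr
  have hxA : x ≤ B * A := by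
    refine le_trans ?_ hA2
    calc x = x ^ 1 := (pow_one x).symm
      _ ≤ x ^ d := Nat.pow_le_pow_right (by omega) hd
  have hA0 : 0 < A := by
    rcases Nat.eq_zero_or_pos A with h | h
    · rw [h, mul_zero] at hxA; omega
    · exact h
  have hAr : (0 : ℝ) < A := by exact_mod_cast hA0
  refine ⟨?_, ?_, hxA⟩
  · have h2 : (x : ℝ) ≤ B * A := by exact_mod_cast hxA
    have h3 := Real.log_le_log hx0 h2
    rw [Real.log_mul (by linarith) hAr.ne'] at h3
    linarith
  · have h2 : (A : ℝ) ≤ B * (x : ℝ) ^ d := by exact_mod_cast hA1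
    have h3 := Real.log_le_log hAr h2
    rw [Real.log_mul (by linarith) (by positivity), Real.log_pow] at h3
    have h4 : (d : ℝ) ≤ D := by exact_mod_cast hdD
    have h5 : (d : ℝ) * Real.log x ≤ D * Real.log x := mul_le_mul_of_nonneg_right h4 (by linarith)
    linarith

set_option maxHeartbeats 1000000 in
theorem sys_diff {k : ℕ} (F : Fin k → ℤ[X]) (hd : ∀ i, 1 ≤ (F i).natDegree) (hl : ∀ i, 0 < (F i).leadingCoeff)
    (σ : Fin k → ℤ) (hσ : ∀ i, σ i = 1 ∨ σ i = -1) (B : ℕ) (hB : 1 ≤ B) (U : ℕ) :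
    ∃ B0 : ℕ, ∀ E : ℕ, ∃ N0 : ℕ, ∀ x : ℕ, N0 ≤ x → ∀ A : Fin k → ℕ,
      (∀ i, A i ≤ B * x ^ (F i).natDegree ∧ x ^ (F i).natDegree ≤ B * A i) →
      ∀ z : ℕ, Real.log x ^ B0 ≤ z → (z : ℝ) ≤ Real.log x ^ E →
      ∀ G : ℕ → ℝ, (∀ n ∈ Icc 1 x, |G n| ≤ Real.log x) →
      ∑ a ∈ Fintype.piFinset (fun i => Icc 1 (A i)), |∑ n ∈ Icc 1 x, G n *
        (∏ i, lamI (vl F σ a i n) - ∏ i, lamzI z (vl F σ a i n))| ≤
        x * (∏ i, (A i : ℝ)) / Real.log x ^ U := by
  classical
  set U' : ℕ := U + k + 2 with hU'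
  set D : ℕ := univ.sup (fun i => (F i).natDegree) with hD
  have hbl := fun i => bil_lam (F i) (hd i) (hl i) B hB U'
  choose B0 hB0 using hbl
  refine ⟨univ.sup B0 + 1, fun E => ?_⟩
  have hE := fun i => hB0 i (E + 1)
  choose N0 hN0 using hE
  obtain ⟨n1, h1⟩ := size_log D B hB
  set c1 : ℕ := 2 * B * (1 + univ.sup (fun i => cf (F i))) with hc1
  set C2 : ℝ := (D + 1 : ℝ) ^ (univ.sup B0) + 2 * 2 ^ E + Real.log c1 + (D + 2) + (k : ℝ) * (D + 2) ^ k * 2 ^ U' with hC2
  obtain ⟨n2, h2⟩ := ev_L' C2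
  obtain ⟨n3, h3⟩ := Vz_inv_small E
  refine ⟨max (max (B * univ.sup N0) n1) (max (max n2 n3) 3), fun x hx A hA z hz1 hz2 G hG => ?_⟩
  have b0 := le_trans (le_trans (le_max_left _ _) (le_max_left _ _)) hx
  have b1 := le_trans (le_trans (le_max_right _ _) (le_max_left _ _)) hx
  have b2 := le_trans (le_trans (le_trans (le_max_left _ _) (le_max_left _ _)) (le_max_right _ _)) hx
  have b3 := le_trans (le_trans (le_trans (le_max_right _ _) (le_max_left _ _)) (le_max_right _ _)) hx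
  have hx3 : 3 ≤ x := le_trans (le_trans (le_max_right _ _) (le_max_right _ _)) hx
  have hxr : (3 : ℝ) ≤ x := by exact_mod_cast hx3
  have hx0 : (0 : ℝ) < x := by linarith
  have hL := h2 x b2
  set L := Real.log x with hLd
  have hDr : (0 : ℝ) ≤ D := Nat.cast_nonneg _
  have hc1n : 1 ≤ c1 := by rw [hc1]; exact Nat.mul_pos (by omega) (by omega)
  have hc1r : (1 : ℝ) ≤ c1 := by exact_mod_cast hc1n
  have hlc1 : 0 ≤ Real.log c1 := Real.log_nonneg hc1r
  have q1 : (1 : ℝ) ≤ (D + 1 : ℝ) ^ (univ.sup B0) := one_le_pow₀ (by linarith)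
  have q2 : (1 : ℝ) ≤ 2 ^ E := one_le_pow₀ (by norm_num)
  have q3 : 0 ≤ (k : ℝ) * (D + 2) ^ k * 2 ^ U' := by positivity
  have hL1 : 1 ≤ L := by rw [hC2] at hL; linarith
  have hL0 : 0 < L := by linarith
  have hLa : (D + 1 : ℝ) ^ (univ.sup B0) ≤ L := by rw [hC2] at hL; linarith
  have hLb : 2 * 2 ^ E ≤ L := by rw [hC2] at hL; linarith
  have hLc : Real.log c1 ≤ L := by rw [hC2] at hL; linarith
  have hLd' : (k : ℝ) * (D + 2) ^ k * 2 ^ U' ≤ L := by rw [hC2] at hL; linarith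
  have hz : 1 ≤ z := by
    have : (1 : ℝ) ≤ z := (one_le_pow₀ hL1).trans hz1
    exact_mod_cast this
  have hV := h3 x b3 z hz hz2
  have hdD : ∀ i, (F i).natDegree ≤ D := fun i => le_sup (f := fun i => (F i).natDegree) (mem_univ i)
  have hsz := fun i => h1 x b1 (F i).natDegree (A i) (hd i) (hdD i) (hA i).1 (hA i).2
  have hA1 : ∀ i, 1 ≤ A i := by
    intro i
    rcases Nat.eq_zero_or_pos (A i) with h | h
    · have := (hsz i).2.2
      rw [h, mul_zero] at this
      omega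
    · exact h
  have hAN : ∀ i, N0 i ≤ A i := by
    intro i
    have h4 : B * N0 i ≤ B * A i := by
      calc B * N0 i ≤ B * univ.sup N0 := Nat.mul_le_mul_left _ (le_sup (f := N0) (mem_univ i))
        _ ≤ x := b0
        _ ≤ B * A i := (hsz i).2.2
    exact Nat.le_of_mul_le_mul_left h4 (by omega)
  -- sizes of the values
  have hup : ∀ i, ∀ n ∈ Icc 1 x, ∀ v ∈ Icc 1 (A i), (((v : ℤ) + σ i * (F i).eval (n : ℤ) : ℤ) : ℝ) ≤ c1 * (x : ℝ) ^ D := by
    intro i n hn v hv
    rw [mem_Icc] at hn hv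
    have h4 := abs_eval_le (F i) n hn.1
    have h4' : |σ i * (F i).eval (n : ℤ)| = |(F i).eval (n : ℤ)| := by
      rcases hσ i with h | h <;> rw [h] <;> simp
    have h5 : σ i * (F i).eval (n : ℤ) ≤ (cf (F i) : ℤ) * (n : ℤ) ^ (F i).natDegree := by
      have := le_abs_self (σ i * (F i).eval (n : ℤ))
      rw [h4'] at this
      exact this.trans h4
    have h6 : cf (F i) * n ^ (F i).natDegree ≤ univ.sup (fun i => cf (F i)) * x ^ D := by
      apply Nat.mul_le_mul (le_sup (f := fun i => cf (F i)) (mem_univ i))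
      exact (Nat.pow_le_pow_left hn.2 _).trans (Nat.pow_le_pow_right (by omega) (hdD i))
    have h7 : v ≤ B * x ^ D := hv.2.trans ((hA i).1.trans (Nat.mul_le_mul_left _ (Nat.pow_le_pow_right (by omega) (hdD i))))
    have h8 : v + univ.sup (fun i => cf (F i)) * x ^ D ≤ c1 * x ^ D := by
      rw [hc1]
      have h9 : univ.sup (fun i => cf (F i)) ≤ 2 * B * univ.sup (fun i => cf (F i)) := Nat.le_mul_of_pos_left _ (by omega)
      have h10 : 2 * B * (1 + univ.sup (fun i => cf (F i))) * x ^ D = 2 * (B * x ^ D) + 2 * B * univ.sup (fun i => cf (F i)) * x ^ D := by ring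
      rw [h10]
      have h11 : univ.sup (fun i => cf (F i)) * x ^ D ≤ 2 * B * univ.sup (fun i => cf (F i)) * x ^ D := Nat.mul_le_mul_right _ h9
      omega
    have h9 : ((v : ℤ) + σ i * (F i).eval (n : ℤ)) ≤ ((c1 * x ^ D : ℕ) : ℤ) := by
      have h10 : ((cf (F i) * n ^ (F i).natDegree : ℕ) : ℤ) ≤ ((univ.sup (fun i => cf (F i)) * x ^ D : ℕ) : ℤ) := by exact_mod_cast h6
      have h11 : ((v + univ.sup (fun i => cf (F i)) * x ^ D : ℕ) : ℤ) ≤ ((c1 * x ^ D : ℕ) : ℤ) := by exact_mod_cast h8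
      have h12 : ((cf (F i) * n ^ (F i).natDegree : ℕ) : ℤ) = (cf (F i) : ℤ) * (n : ℤ) ^ (F i).natDegree := by push_cast; ring
      have h13 : ((v + univ.sup (fun i => cf (F i)) * x ^ D : ℕ) : ℤ) = (v : ℤ) + ((univ.sup (fun i => cf (F i)) * x ^ D : ℕ) : ℤ) := by
        push_cast; ring
      linarith
    have h10 : (((v : ℤ) + σ i * (F i).eval (n : ℤ) : ℤ) : ℝ) ≤ (((c1 * x ^ D : ℕ) : ℤ) : ℝ) := by exact_mod_cast h9
    push_cast at h10 ⊢
    exact h10
  have hlogc : Real.log (c1 * (x : ℝ) ^ D) ≤ (D + 2) * L := by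
    rw [Real.log_mul (by linarith) (by positivity), Real.log_pow]
    have : (D : ℝ) * Real.log x = D * L := rfl
    rw [this]
    linarith
  have h1c : (1 : ℝ) ≤ c1 * (x : ℝ) ^ D := by
    have h4 : (1 : ℝ) ≤ (x : ℝ) ^ D := one_le_pow₀ (by linarith)
    nlinarith
  have key := tele x A hA1 (fun i n v => lamI ((v : ℤ) + σ i * (F i).eval (n : ℤ))) (fun i n v => lamzI z ((v : ℤ) + σ i * (F i).eval (n : ℤ)))
    ((D + 2) * L) (x * 2 ^ U' / L ^ U') (by nlinarith) (by positivity) (by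
      intro i n hn v hv
      rw [abs_of_nonneg (lamI_nonneg _)]
      exact (lamI_le _ _ h1c (hup i n hn v hv)).trans hlogc) (by
      intro i n hn v hv
      rw [abs_of_nonneg (lamzI_nonneg _ _)]
      refine (lamzI_le z _).trans (hV.trans ?_)
      have h4 : L ≤ (D + 2) * L := by nlinarith
      exact h4) (by
      intro i K hK G hG
      have hlA0 : 0 < Real.log (A i) := by have := (hsz i).1; linarith
      have hzl : Real.log (A i) ^ B0 i ≤ z := by
        refine le_trans ?_ hz1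
        calc Real.log (A i) ^ B0 i ≤ ((D + 1) * L) ^ B0 i := pow_le_pow_left₀ hlA0.le (hsz i).2.1 _
          _ ≤ ((D + 1) * L) ^ (univ.sup B0) := by
              apply pow_le_pow_right₀ _ (le_sup (f := B0) (mem_univ i))
              nlinarith
          _ = (D + 1) ^ (univ.sup B0) * L ^ (univ.sup B0) := mul_pow _ _ _
          _ ≤ L * L ^ (univ.sup B0) := mul_le_mul_of_nonneg_right hLa (by positivity)
          _ = L ^ (univ.sup B0 + 1) := by ring
      have hzu : (z : ℝ) ≤ Real.log (A i) ^ (E + 1) := by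
        refine hz2.trans ?_
        have h5 : L ≤ 2 * Real.log (A i) := by have := (hsz i).1; linarith
        calc L ^ E ≤ (2 * Real.log (A i)) ^ E := pow_le_pow_left₀ hL0.le h5 _
          _ = 2 ^ E * Real.log (A i) ^ E := mul_pow _ _ _
          _ ≤ Real.log (A i) * Real.log (A i) ^ E := by
              apply mul_le_mul_of_nonneg_right _ (by positivity)
              linarith
          _ = _ := by ring
      have h4 := hN0 i (A i) (hAN i) x (hA i).1 (hA i).2 (A i) (Nat.le_mul_of_pos_left _ (by omega)) z hzl hzu (σ i) (hσ i)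
      have h5 := l1_of_bil' (A i) x (fun v n => lamI ((v : ℤ) + σ i * (F i).eval (n : ℤ)) - lamzI z ((v : ℤ) + σ i * (F i).eval (n : ℤ)))
        (A i * x / Real.log (A i) ^ U') K hK h4 G hG
      refine h5.trans ?_
      apply mul_le_mul_of_nonneg_left _ hK.le
      have h6 : (L / 2) ^ U' ≤ Real.log (A i) ^ U' := pow_le_pow_left₀ (by positivity) (hsz i).1 _
      calc (A i : ℝ) * x / Real.log (A i) ^ U' ≤ A i * x / (L / 2) ^ U' := by
            apply div_le_div_of_nonneg_left (by positivity) (by positivity) h6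
        _ = _ := by rw [div_pow]; field_simp)
    univ L hL0 (fun n _ => G n) (by
      intro n hn m _
      exact hG n hn) (by
      intro n m v i _; rfl)
  refine key.trans ?_
  rw [card_univ, Fintype.card_fin]
  have hprod : 0 ≤ ∏ i, (A i : ℝ) := prod_nonneg fun _ _ => Nat.cast_nonneg _
  calc (k : ℝ) * (L * ((D + 2) * L) ^ k * (x * 2 ^ U' / L ^ U')) * ∏ i, (A i : ℝ)
      = ((k : ℝ) * (D + 2) ^ k * 2 ^ U' / L) * (x * (∏ i, (A i : ℝ)) / L ^ U) := by
        have e : L ^ U' = L ^ U * L ^ k * L * L := by rw [hU', pow_add, pow_add]; ring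
        rw [mul_pow, e]
        field_simp
    _ ≤ 1 * (x * (∏ i, (A i : ℝ)) / L ^ U) := by
        apply mul_le_mul_of_nonneg_right _ (by positivity)
        rw [div_le_one hL0]
        exact hLd'
    _ = _ := one_mul _

end Pool.Agent.H373R2.T7
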