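import Mathlib
import Pool.Agent.H49.G.R_seed8.H373R2.T7.Sys2
import Pool.Agent.H49.G.R_seed8.H373R2.T7.SysCount

/-! Signed systems: local conditions and positivity. -/

namespace Pool.Agent.H373R2.T7
open Finset Polynomial

lemma ev_mono (f : ℤ[X]) (hd : 1 ≤ f.natDegree) (hl : 0 < f.leadingCoeff) :
    ∃ n0 : ℕ, (∀ n : ℕ, n0 ≤ n → 0 ≤ f.eval (n : ℤ)) ∧ ∀ n m : ℕ, n0 ≤ n → n ≤ m → f.eval (n : ℤ) ≤ f.eval (m : ℤ) := by
  set P : ℝ[X] := f.map (Int.castRingHom ℝ) with hP
  have hinj : Function.Injective (Int.castRingHom ℝ) := Int.cast_injective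
  have hnd : P.natDegree = f.natDegree := natDegree_map_eq_of_injective hinj f
  have hlcP : 0 < P.leadingCoeff := by
    rw [hP, leadingCoeff_map_of_injective hinj, eq_intCast]
    exact_mod_cast hl
  have hev : ∀ m : ℕ, P.eval (m : ℝ) = ((f.eval (m : ℤ) : ℤ) : ℝ) := by
    intro m
    rw [hP]
    simp
  have hdeg : 0 < P.degree := by
    rw [← natDegree_pos_iff_degree_pos]
    omega
  have ht := (P.tendsto_atTop_of_leadingCoeff_nonneg hdeg hlcP.le).comp (tendsto_natCast_atTop_atTop (R := ℝ))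
  obtain ⟨n0, h0⟩ := Filter.eventually_atTop.1 (ht.eventually_ge_atTop 0)
  -- the derivative
  have hlc' : 0 < (derivative P).leadingCoeff := by
    rw [leadingCoeff_derivative]
    have : (0 : ℝ) < P.natDegree := by
      rw [hnd]; exact_mod_cast hd
    positivity
  have hder : ∃ y0 : ℝ, ∀ y : ℝ, y0 ≤ y → 0 ≤ (derivative P).eval y := by
    rcases Nat.eq_zero_or_pos (derivative P).natDegree with h | h
    · refine ⟨0, fun y _ => ?_⟩
      rw [eq_C_of_natDegree_eq_zero h, eval_C]
      have : (derivative P).coeff 0 = (derivative P).leadingCoeff := by rw [leadingCoeff, h]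
      rw [this]
      exact hlc'.le
    · have h1 := ((derivative P).tendsto_atTop_of_leadingCoeff_nonneg (natDegree_pos_iff_degree_pos.1 h) hlc'.le)
      exact Filter.eventually_atTop.1 (h1.eventually_ge_atTop 0)
  obtain ⟨y0, hy0⟩ := hder
  have hmono : MonotoneOn (fun y => P.eval y) (Set.Ici y0) := by
    apply monotoneOn_of_deriv_nonneg (convex_Ici y0) P.continuous.continuousOn P.differentiable.differentiableOn
    intro y hy
    rw [interior_Ici] at hy
    rw [Polynomial.deriv]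
    exact hy0 y (le_of_lt hy)
  refine ⟨max n0 ⌈y0⌉₊, fun n hn => ?_, fun n m hn hnm => ?_⟩
  · have h1 := h0 n (le_trans (le_max_left _ _) hn)
    simp only [Function.comp] at h1
    rw [hev] at h1
    exact_mod_cast h1
  · have h1 : y0 ≤ n := (Nat.le_ceil y0).trans (by exact_mod_cast le_trans (le_max_right _ _) hn)
    have h2 : (n : ℝ) ≤ m := by exact_mod_cast hnm
    have h3 := hmono (Set.mem_Ici.2 h1) (Set.mem_Ici.2 (h1.trans h2)) h2
    simp only at h3
    rw [hev, hev] at h3
    exact_mod_cast h3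

/-- the positive part is an initial segment up to boundedly many elements -/
lemma seg_init {k : ℕ} (F : Fin k → ℤ[X]) (hd : ∀ i, 1 ≤ (F i).natDegree) (hl : ∀ i, 0 < (F i).leadingCoeff)
    (σ : Fin k → ℤ) (hσ : ∀ i, σ i = 1 ∨ σ i = -1) :
    ∃ n0 : ℕ, 1 ≤ n0 ∧ ∀ a : Fin k → ℕ, (∀ i, 1 ≤ a i) → ∀ x : ℕ, ∃ X : ℕ, X ≤ x ∧
      ∀ n ∈ Icc n0 x, ((∀ i, 1 ≤ vl F σ a i n) ↔ n ≤ X) := by
  classical
  choose n0 h0 h1 using fun i => ev_mono (F i) (hd i) (hl i)
  refine ⟨univ.sup n0 + 1, by omega, fun a ha x => ?_⟩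
  have hdown : ∀ n m : ℕ, univ.sup n0 + 1 ≤ n → n ≤ m → (∀ i, 1 ≤ vl F σ a i m) → ∀ i, 1 ≤ vl F σ a i n := by
    intro n m hn hnm h i
    have hni : n0 i ≤ n := by
      have := le_sup (f := n0) (mem_univ i)
      omega
    unfold vl
    rcases hσ i with hs | hs
    · rw [hs, one_mul]
      have h2 := h0 i n hni
      have h3 : (1 : ℤ) ≤ a i := by exact_mod_cast ha i
      linarith
    · have h2 := h1 i n m hni hnm
      have h3 := h i
      unfold vl at h3
      rw [hs] at h3 ⊢
      linarith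
  refine ⟨((Icc (univ.sup n0 + 1) x).filter (fun n => ∀ i, 1 ≤ vl F σ a i n)).sup id, ?_, ?_⟩
  · apply Finset.sup_le
    intro n hn
    rw [mem_filter, mem_Icc] at hn
    exact hn.1.2
  · intro n hn
    constructor
    · intro h
      exact le_sup (f := id) (mem_filter.2 ⟨hn, h⟩)
    · intro h
      set S := (Icc (univ.sup n0 + 1) x).filter (fun n => ∀ i, 1 ≤ vl F σ a i n) with hS
      rcases S.eq_empty_or_nonempty with he | hne
      · rw [he, sup_empty] at h
        rw [mem_Icc] at hn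
        have : n = 0 := Nat.le_zero.1 h
        omega
      · obtain ⟨m, hm, hm2⟩ := exists_mem_eq_sup S hne id
        rw [hm2] at h
        rw [hS, mem_filter] at hm
        rw [mem_Icc] at hn
        exact hdown n m hn.1 h hm.2

/-- the local condition -/
def sysQ {k : ℕ} (F : Fin k → ℤ[X]) (σ : Fin k → ℤ) (a : Fin k → ℕ) (p n : ℕ) : Prop := ∃ i, (p : ℤ) ∣ vl F σ a i n

/-- bound for the number of classes -/
def sysC {k : ℕ} (F : Fin k → ℤ[X]) : ℕ := 1 + ∑ i, ((F i).natDegree + (F i).leadingCoeff.natAbs)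

lemma sysC_pos {k : ℕ} (F : Fin k → ℤ[X]) : 1 ≤ sysC F := by unfold sysC; omega

lemma roots_le (P : ℤ[X]) (p : ℕ) (hp : p.Prime) (d : ℕ) (hd : P.natDegree ≤ d) (h : ¬ (p : ℤ) ∣ P.coeff d) :
    ((range p).filter (fun r : ℕ => (p : ℤ) ∣ P.eval (r : ℤ))).card ≤ d := by
  classical
  have := Fact.mk hp
  set Q : (ZMod p)[X] := P.map (Int.castRingHom (ZMod p)) with hQ
  have hQ0 : Q ≠ 0 := by
    intro h0
    apply h
    have h1 : Q.coeff d = 0 := by rw [h0, coeff_zero]
    rw [hQ, coeff_map, eq_intCast] at h1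
    exact (ZMod.intCast_zmod_eq_zero_iff_dvd _ _).1 h1
  have h1 : ((range p).filter (fun r : ℕ => (p : ℤ) ∣ P.eval (r : ℤ))).card ≤ Q.roots.toFinset.card := by
    apply card_le_card_of_injOn (fun r : ℕ => (r : ZMod p))
    · intro r hr
      rw [mem_coe, mem_filter] at hr
      rw [mem_coe, Multiset.mem_toFinset, mem_roots hQ0, IsRoot.def, hQ]
      have h2 : eval (r : ZMod p) (P.map (Int.castRingHom (ZMod p))) = ((P.eval (r : ℤ) : ℤ) : ZMod p) := by
        simp
      rw [h2]
      exact (ZMod.intCast_zmod_eq_zero_iff_dvd _ _).2 hr.2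
    · intro r hr s hs hrs
      rw [mem_coe, mem_filter, mem_range] at hr hs
      have := (ZMod.natCast_eq_natCast_iff' r s p).1 hrs
      rwa [Nat.mod_eq_of_lt hr.1, Nat.mod_eq_of_lt hs.1] at this
  refine h1.trans ((Multiset.toFinset_card_le _).trans ((card_roots' Q).trans ?_))
  exact (natDegree_map_le).trans hd

lemma vl_eval {k : ℕ} (F : Fin k → ℤ[X]) (σ : Fin k → ℤ) (a : Fin k → ℕ) (i : Fin k) (n : ℕ) :
    vl F σ a i n = (C (a i : ℤ) + C (σ i) * F i).eval (n : ℤ) := by
  unfold vl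
  simp

lemma sysQ_per {k : ℕ} (F : Fin k → ℤ[X]) (hd : ∀ i, 1 ≤ (F i).natDegree) (hl : ∀ i, 0 < (F i).leadingCoeff)
    (σ : Fin k → ℤ) (hσ : ∀ i, σ i = 1 ∨ σ i = -1) (a : Fin k → ℕ) : PerB (sysQ F σ a) (sysC F) := by
  classical
  constructor
  · intro p n
    unfold sysQ
    apply exists_congr
    intro i
    rw [vl_eval, vl_eval]
    have h1 : ((n : ℤ) - ((n % p : ℕ) : ℤ)) ∣ (C (a i : ℤ) + C (σ i) * F i).eval (n : ℤ) - (C (a i : ℤ) + C (σ i) * F i).eval ((n % p : ℕ) : ℤ) :=
      sub_dvd_eval_sub _ _ _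
    have h2 : (p : ℤ) ∣ (n : ℤ) - ((n % p : ℕ) : ℤ) := by
      push_cast
      exact Int.dvd_self_sub_emod
    have h3 := h2.trans h1
    exact (dvd_iff_dvd_of_dvd_sub h3)
  · intro p hp
    unfold nuB sysQ
    have h1 : (range p).filter (fun r => ∃ i, (p : ℤ) ∣ vl F σ a i r) ⊆
        univ.biUnion (fun i => (range p).filter (fun r : ℕ => (p : ℤ) ∣ (C (a i : ℤ) + C (σ i) * F i).eval (r : ℤ))) := by
      intro r hr
      rw [mem_filter] at hr
      obtain ⟨i, hi⟩ := hr.2
      rw [mem_biUnion]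
      exact ⟨i, mem_univ _, mem_filter.2 ⟨hr.1, by rw [← vl_eval]; exact hi⟩⟩
    have key : ((range p).filter (fun r => ∃ i, (p : ℤ) ∣ vl F σ a i r)).card ≤ ∑ i : Fin k,
        ((range p).filter (fun r : ℕ => (p : ℤ) ∣ (C (a i : ℤ) + C (σ i) * F i).eval (r : ℤ))).card :=
      (card_le_card h1).trans card_biUnion_le
    have h2 : ∀ i ∈ (univ : Finset (Fin k)), ((range p).filter (fun r : ℕ => (p : ℤ) ∣ (C (a i : ℤ) + C (σ i) * F i).eval (r : ℤ))).card ≤
        (F i).natDegree + (F i).leadingCoeff.natAbs := by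
      intro i _
      by_cases hp2 : (p : ℤ) ∣ (F i).leadingCoeff
      · have h3 : p ≤ (F i).leadingCoeff.natAbs := by
          apply Nat.le_of_dvd
          · have := hl i
            omega
          · exact Int.natCast_dvd.1 hp2
        refine (card_filter_le _ _).trans ?_
        rw [card_range]
        omega
      · refine (roots_le _ p hp (F i).natDegree ?_ ?_).trans (by omega)
        · refine (natDegree_add_le _ _).trans ?_
          rw [natDegree_C]
          apply max_le (by omega)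
          exact (natDegree_C_mul_le _ _)
        · rw [coeff_add, coeff_C_mul, coeff_C, if_neg (by have := hd i; omega), zero_add]
          rcases hσ i with hs | hs
          · rw [hs, one_mul]; exact hp2
          · rw [hs, neg_one_mul, dvd_neg]; exact hp2
    have key2 := key.trans (sum_le_sum h2)
    have key3 : ((range p).filter (fun r => ∃ i, (p : ℤ) ∣ vl F σ a i r)).card ≤ sysC F := by
      unfold sysC
      omega
    convert key3

end Pool.Agent.H373R2.T7
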