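import Mathlib
import Pool.Agent.H49.G.R_seed8.H373R2.T7.Sys4

/-! Signed systems: the `L¹` theorem. -/

namespace Pool.Agent.H373R2.T7
open Finset Polynomial

theorem sys_l1 {k : ℕ} (F : Fin k → ℤ[X]) (hd : ∀ i, 1 ≤ (F i).natDegree) (hl : ∀ i, 0 < (F i).leadingCoeff)
    (σ : Fin k → ℤ) (hσ : ∀ i, σ i = 1 ∨ σ i = -1) (w : ℕ → ℝ) (dn : (ℕ → ℕ → Prop) → ℕ → ℝ) (hw : WD w dn (sysC F))
    (B : ℕ) (hB : 1 ≤ B) (U : ℕ) :
    ∃ B0 : ℕ, ∀ E : ℕ, ∃ N0 : ℕ, ∀ x : ℕ, N0 ≤ x → ∀ A : Fin k → ℕ,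
      (∀ i, A i ≤ B * x ^ (F i).natDegree ∧ x ^ (F i).natDegree ≤ B * A i) →
      ∀ z : ℕ, Real.log x ^ B0 ≤ z → (z : ℝ) ≤ Real.log x ^ E →
      ∑ a ∈ Fintype.piFinset (fun i => Icc 1 (A i)), |∑ n ∈ Icc 1 x, w n * ∏ i, lamP (vl F σ a i n) -
        ((Vz z)⁻¹) ^ k * dn (sysQ F σ a) z * posCount F σ a x| ≤ x * (∏ i, (A i : ℝ)) / Real.log x ^ U := by
  obtain ⟨B0, hB0⟩ := sys_diffP F hd hl σ hσ B hB (U + 1)
  refine ⟨B0, fun E => ?_⟩
  obtain ⟨n1, h1⟩ := hB0 E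
  obtain ⟨n2, h2⟩ := sys_model F hd hl σ hσ w dn hw E (U + 1)
  obtain ⟨n3, h3⟩ := ev_L' 2
  refine ⟨max (max n1 n2) n3, fun x hx A hA z hz1 hz2 => ?_⟩
  have b1 := le_trans (le_trans (le_max_left _ _) (le_max_left _ _)) hx
  have b2 := le_trans (le_trans (le_max_right _ _) (le_max_left _ _)) hx
  have hL := h3 x (le_trans (le_max_right _ _) hx)
  have hL0 : 0 < Real.log x := by linarith
  have hL1 : 1 ≤ Real.log x := by linarith
  have hz : 1 ≤ z := by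
    have : (1 : ℝ) ≤ z := (one_le_pow₀ hL1).trans hz1
    exact_mod_cast this
  have hwL : ∀ n ∈ Icc 1 x, |w n| ≤ Real.log x := by
    intro n hn
    rw [mem_Icc] at hn
    rw [abs_of_nonneg (hw.nn n)]
    refine (hw.le n hn.1).trans (max_le hL1 ?_)
    apply Real.log_le_log (by exact_mod_cast hn.1)
    exact_mod_cast hn.2
  have k1 := h1 x b1 A hA z hz1 hz2 w hwL
  have hpt : ∀ a ∈ Fintype.piFinset (fun i => Icc 1 (A i)), |∑ n ∈ Icc 1 x, w n * ∏ i, lamP (vl F σ a i n) -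
        ((Vz z)⁻¹) ^ k * dn (sysQ F σ a) z * posCount F σ a x| ≤
        |∑ n ∈ Icc 1 x, w n * (∏ i, lamP (vl F σ a i n) - ∏ i, lamzI z (vl F σ a i n))| + x / Real.log x ^ (U + 1) := by
    intro a ha
    have ha1 : ∀ i, 1 ≤ a i := fun i => (mem_Icc.1 (Fintype.mem_piFinset.1 ha i)).1
    have h4 := h2 x b2 a ha1 z hz hz2
    have e : ∑ n ∈ Icc 1 x, w n * ∏ i, lamP (vl F σ a i n) - ((Vz z)⁻¹) ^ k * dn (sysQ F σ a) z * posCount F σ a x =
        ∑ n ∈ Icc 1 x, w n * (∏ i, lamP (vl F σ a i n) - ∏ i, lamzI z (vl F σ a i n)) +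
        (∑ n ∈ Icc 1 x, w n * ∏ i, lamzI z (vl F σ a i n) - ((Vz z)⁻¹) ^ k * dn (sysQ F σ a) z * posCount F σ a x) := by
      have : ∑ n ∈ Icc 1 x, w n * (∏ i, lamP (vl F σ a i n) - ∏ i, lamzI z (vl F σ a i n)) =
          ∑ n ∈ Icc 1 x, w n * ∏ i, lamP (vl F σ a i n) - ∑ n ∈ Icc 1 x, w n * ∏ i, lamzI z (vl F σ a i n) := by
        rw [← sum_sub_distrib]
        apply sum_congr rfl
        intro n _
        ring
      rw [this]
      ring
    rw [e]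
    exact (abs_add_le _ _).trans (add_le_add le_rfl h4)
  refine (sum_le_sum hpt).trans ?_
  rw [sum_add_distrib, sum_const, nsmul_eq_mul, card_box]
  have hprod : 0 ≤ ∏ i, (A i : ℝ) := prod_nonneg fun _ _ => Nat.cast_nonneg _
  calc _ ≤ x * (∏ i, (A i : ℝ)) / Real.log x ^ (U + 1) + (∏ i, (A i : ℝ)) * (x / Real.log x ^ (U + 1)) := add_le_add k1 le_rfl
    _ = (2 / Real.log x) * (x * (∏ i, (A i : ℝ)) / Real.log x ^ U) := by
        rw [pow_succ]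
        field_simp
        ring
    _ ≤ 1 * (x * (∏ i, (A i : ℝ)) / Real.log x ^ U) := by
        apply mul_le_mul_of_nonneg_right _ (by positivity)
        rw [div_le_one hL0]
        exact hL
    _ = _ := one_mul _

/-- Markov -/
lemma markov {ι : Type*} (s : Finset ι) (f : ι → ℝ) (hf : ∀ i ∈ s, 0 ≤ f i) (T S : ℝ) (hT : 0 < T) (h : ∑ i ∈ s, f i ≤ T * S)
    [DecidablePred fun i => T < f i] : ((s.filter (fun i => T < f i)).card : ℝ) ≤ S := by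
  have h1 : T * (s.filter (fun i => T < f i)).card ≤ ∑ i ∈ s, f i := by
    calc T * (s.filter (fun i => T < f i)).card = ∑ _i ∈ s.filter (fun i => T < f i), T := by
          rw [sum_const, nsmul_eq_mul, mul_comm]
      _ ≤ ∑ i ∈ s.filter (fun i => T < f i), f i := sum_le_sum fun i hi => (mem_filter.1 hi).2.le
      _ ≤ ∑ i ∈ s, f i := sum_le_sum_of_subset_of_nonneg (filter_subset _ _) (fun i hi _ => hf i hi)
  exact le_of_mul_le_mul_left (h1.trans h) hT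

end Pool.Agent.H373R2.T7
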