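import Mathlib
import Pool.Agent.H49.G.R_seed8.H373R2.T7.Sys7

/-! Signed systems: the unweighted asymptotic formula outside a small set. -/

namespace Pool.Agent.H373R2.T7
open Finset Polynomial

lemma ev_loglog (U : ℕ) (η : ℝ) (hη : 0 < η) : ∃ x0 : ℕ, ∀ x : ℕ, x0 ≤ x → U * Real.log (Real.log x) ≤ η * Real.log x := by
  have hlim : Filter.Tendsto (fun N : ℕ => Real.log (N : ℝ)) Filter.atTop Filter.atTop :=
    Real.tendsto_log_atTop.comp (tendsto_natCast_atTop_atTop (R := ℝ))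
  have h3 := Real.isLittleO_log_id_atTop.bound (show (0 : ℝ) < η / (U + 1) by positivity)
  have h4 := hlim.eventually h3
  obtain ⟨x0, h0⟩ := Filter.eventually_atTop.1 (h4.and (hlim.eventually_ge_atTop 1))
  refine ⟨x0, fun x hx => ?_⟩
  obtain ⟨h5, h6⟩ := h0 x hx
  simp only [id] at h5
  have h7 : 0 ≤ Real.log (Real.log x) := Real.log_nonneg h6
  rw [Real.norm_of_nonneg h7, Real.norm_of_nonneg (by linarith)] at h5
  have hU : (0 : ℝ) ≤ U := Nat.cast_nonneg _
  calc U * Real.log (Real.log x) ≤ (U + 1) * (η / (U + 1) * Real.log x) := by nlinarith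
    _ = _ := by field_simp

/-- lower bound for the singular series -/
lemma sing_low {k : ℕ} (Q : ℕ → ℕ → Prop) (m : ℕ) (hm : 1 ≤ m) (hQ : PerB Q m) (z : ℕ) (L : ℝ) (hL : 1 ≤ L) (hV : (Vz z)⁻¹ ≤ L)
    (h0 : ((Vz z)⁻¹) ^ k * ∏ p ∈ pz z, (1 - (nuB Q p : ℝ) / p) ≠ 0) :
    (1 / (3 * m : ℝ)) ^ (3 * m) * Real.exp (-(2 * (m : ℝ) ^ 2)) / L ^ m ≤ ((Vz z)⁻¹) ^ k * ∏ p ∈ pz z, (1 - (nuB Q p : ℝ) / p) := by
  have hVp := Vz_pos z
  have hV1 := Vz_le_one z
  have hfac : ∀ p ∈ pz z, (1 - (nuB Q p : ℝ) / p) ≠ 0 := fun p hp => (prod_ne_zero_iff.1 (right_ne_zero_of_mul h0)) p hp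
  have h2 : ∀ p ∈ pz z, nuB Q p + 1 ≤ p := by
    intro p hp
    have h3 := nuB_le Q p
    rcases Nat.lt_or_ge (nuB Q p) p with h | h
    · exact h
    · exfalso
      apply hfac p hp
      have h4 : nuB Q p = p := le_antisymm h3 h
      have hp0 : (p : ℝ) ≠ 0 := by exact_mod_cast (mem_pz.1 hp).2.ne_zero
      rw [h4, div_self hp0, sub_self]
  have h5 := local_low m hm (nuB Q) z (fun p hp => hQ.few p (mem_pz.1 hp).2) h2
  rw [prod_div_distrib, prod_pow] at h5
  have e : ∏ p ∈ pz z, (1 - 1 / (p : ℝ)) = Vz z := rfl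
  rw [e, le_div_iff₀ (by positivity)] at h5
  have hc0 : 0 ≤ (1 / (3 * m : ℝ)) ^ (3 * m) * Real.exp (-(2 * (m : ℝ) ^ 2)) := by positivity
  have h6 : 1 / L ≤ Vz z := by
    rw [div_le_iff₀ (by linarith)]
    rw [inv_le_iff_one_le_mul₀ hVp] at hV
    linarith
  have h7 : (1 / L) ^ m ≤ Vz z ^ m := pow_le_pow_left₀ (by positivity) h6 _
  have h8 : (1 / (3 * m : ℝ)) ^ (3 * m) * Real.exp (-(2 * (m : ℝ) ^ 2)) / L ^ m ≤ ∏ p ∈ pz z, (1 - (nuB Q p : ℝ) / p) := by
    calc _ = (1 / (3 * m : ℝ)) ^ (3 * m) * Real.exp (-(2 * (m : ℝ) ^ 2)) * (1 / L) ^ m := by rw [one_div L, inv_pow, div_eq_mul_inv]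
      _ ≤ (1 / (3 * m : ℝ)) ^ (3 * m) * Real.exp (-(2 * (m : ℝ) ^ 2)) * Vz z ^ m := mul_le_mul_of_nonneg_left h7 hc0
      _ ≤ _ := h5
  refine h8.trans ?_
  have h9 : 0 ≤ ∏ p ∈ pz z, (1 - (nuB Q p : ℝ) / p) := by
    refine le_trans (by positivity) h8
  apply le_mul_of_one_le_left h9
  apply one_le_pow₀
  rw [one_le_inv₀ hVp]
  exact hV1

set_option maxHeartbeats 1000000 in
theorem sys_unweighted {k : ℕ} (F : Fin k → ℤ[X]) (hd : ∀ i, 1 ≤ (F i).natDegree) (hl : ∀ i, 0 < (F i).leadingCoeff)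
    (σ : Fin k → ℤ) (hσ : ∀ i, σ i = 1 ∨ σ i = -1) (B : ℕ) (hB : 1 ≤ B) (U C : ℕ) (ε : ℝ) (hε : 0 < ε) (hε1 : ε ≤ 1) :
    ∃ B0 : ℕ, ∀ E : ℕ, ∃ N0 : ℕ, ∀ x : ℕ, N0 ≤ x → ∀ A : Fin k → ℕ,
      (∀ i, A i ≤ B * x ^ (F i).natDegree ∧ x ^ (F i).natDegree ≤ B * A i) →
      ∀ z : ℕ, Real.log x ^ B0 ≤ z → (z : ℝ) ≤ Real.log x ^ E →
      ∃ S : Finset (Fin k → ℕ), (S.card : ℝ) ≤ (∏ i, (A i : ℝ)) / Real.log x ^ U ∧
        ∀ a ∈ Fintype.piFinset (fun i => Icc 1 (A i)), a ∉ S → ∀ X : ℕ, |(X : ℝ) - posCount F σ a x| ≤ C → X ≤ x →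
        |∑ n ∈ Icc 1 x, (1 : ℝ) * ∏ i, lamP (vl F σ a i n) -
          ((Vz z)⁻¹) ^ k * (∏ p ∈ pz z, (1 - (nuB (sysQ F σ a) p : ℝ) / p)) * X| ≤ x / Real.log x ^ U ∧
        (((Vz z)⁻¹) ^ k * ∏ p ∈ pz z, (1 - (nuB (sysQ F σ a) p : ℝ) / p) ≠ 0 → ε * x ≤ X →
          |(prCount F σ a x : ℝ) - ((Vz z)⁻¹) ^ k * (∏ p ∈ pz z, (1 - (nuB (sysQ F σ a) p : ℝ) / p)) * X / ((∏ i, ((F i).natDegree : ℝ)) * Real.log X ^ k)| ≤
            ε * (((Vz z)⁻¹) ^ k * (∏ p ∈ pz z, (1 - (nuB (sysQ F σ a) p : ℝ) / p)) * X / ((∏ i, ((F i).natDegree : ℝ)) * Real.log X ^ k))) := by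
  classical
  set m : ℕ := sysC F with hm
  have hm1 : 1 ≤ m := sysC_pos F
  set c0 : ℝ := (1 / (3 * m : ℝ)) ^ (3 * m) * Real.exp (-(2 * (m : ℝ) ^ 2)) with hc0
  have hm0 : (0 : ℝ) < m := by exact_mod_cast hm1
  have hc00 : 0 < c0 := by positivity
  set δ : ℝ := ε / 4 with hδd
  have hδ : 0 < δ := by positivity
  have hδ4 : δ ≤ 1 / 4 := by rw [hδd]; linarith
  obtain ⟨η, hη, hη2, e1, e2⟩ := small_par k δ hδ (by linarith)
  set U' : ℕ := U + m + k + 2 with hU'
  set U2 : ℕ := U' + U + 1 with hU2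
  set Dp : ℝ := ∏ i, ((F i).natDegree : ℝ) with hDp
  have hDp1 : 1 ≤ Dp := by
    rw [hDp]
    have : ∀ i ∈ (univ : Finset (Fin k)), (1 : ℝ) ≤ (F i).natDegree := fun i _ => by exact_mod_cast hd i
    calc (1 : ℝ) = ∏ _i : Fin k, (1 : ℝ) := by simp
      _ ≤ _ := prod_le_prod (fun _ _ => zero_le_one) this
  obtain ⟨B0, hB0⟩ := sys_weighted F hd hl σ hσ (fun _ => 1) _ (wd_one (sysC F) (sysC_pos F)) B hB U' C
  refine ⟨B0, fun E => ?_⟩
  obtain ⟨n1, h1⟩ := hB0 E
  obtain ⟨n2, h2⟩ := ev_L' (2 * k * B + 2 + Dp / (δ * c0 * ε) + (-Real.log ε) / η + Real.log (cst F B) / η)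
  obtain ⟨n3, h3⟩ := ev_loglog U2 η hη
  obtain ⟨n4, h4⟩ := Vz_inv_small E
  refine ⟨max (max n1 n2) (max n3 (max n4 2)), fun x hx A hA z hz1 hz2 => ?_⟩
  have b1 := le_trans (le_trans (le_max_left _ _) (le_max_left _ _)) hx
  have b2 := le_trans (le_trans (le_max_right _ _) (le_max_left _ _)) hx
  have b3 := le_trans (le_trans (le_max_left _ _) (le_max_right _ _)) hx
  have b4 := le_trans (le_trans (le_trans (le_max_left _ _) (le_max_right _ _)) (le_max_right _ _)) hx
  have b5 := le_trans (le_trans (le_trans (le_max_right _ _) (le_max_right _ _)) (le_max_right _ _)) hx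
  have hL := h2 x b2
  have hll := h3 x b3
  have hxr : (2 : ℝ) ≤ x := by exact_mod_cast b5
  have hx0 : (0 : ℝ) < x := by linarith
  set L := Real.log x with hLd
  have hBr : (1 : ℝ) ≤ B := by exact_mod_cast hB
  have hk0 : (0 : ℝ) ≤ k := Nat.cast_nonneg _
  have t1 : 0 ≤ 2 * k * B := by positivity
  have t1r : (0 : ℝ) ≤ 2 * k * B := by positivity
  have t2 : 0 ≤ Dp / (δ * c0 * ε) := by positivity
  have t3 : 0 ≤ (-Real.log ε) / η := div_nonneg (by linarith [Real.log_nonpos hε.le hε1]) hη.le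
  have hcst : 1 ≤ cst F B := by unfold cst; omega
  have hcstr : (1 : ℝ) ≤ cst F B := by exact_mod_cast hcst
  have t4 : 0 ≤ Real.log (cst F B) / η := div_nonneg (Real.log_nonneg hcstr) hη.le
  have hL2 : 2 ≤ L := by linarith
  have hL0 : 0 < L := by linarith
  have hL1 : 1 ≤ L := by linarith
  have hLa : 2 * k * B ≤ L := by linarith
  have hLb : Dp / (δ * c0 * ε) ≤ L := by linarith
  have hLc : -Real.log ε ≤ η * L := by
    have : (-Real.log ε) / η ≤ L := by linarith
    rw [div_le_iff₀ hη] at this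
    linarith
  have hLd' : Real.log (cst F B) ≤ η * L := by
    have : Real.log (cst F B) / η ≤ L := by linarith
    rw [div_le_iff₀ hη] at this
    linarith
  have hz : 1 ≤ z := by
    have : (1 : ℝ) ≤ z := (one_le_pow₀ hL1).trans hz1
    exact_mod_cast this
  have hV := h4 x b4 z hz hz2
  have hA1 : ∀ i, 1 ≤ A i := by
    intro i
    rcases Nat.eq_zero_or_pos (A i) with h | h
    · have h3 := (hA i).2
      rw [h, mul_zero] at h3
      have : 1 ≤ x ^ (F i).natDegree := Nat.one_le_pow _ _ (by omega)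
      omega
    · exact h
  obtain ⟨S1, hS1, hS1'⟩ := h1 x b1 A hA z hz1 hz2
  have hprod : 0 ≤ ∏ i, (A i : ℝ) := prod_nonneg fun _ _ => Nat.cast_nonneg _
  -- the second exceptional set
  set T : Fin k → ℝ := fun i => (x : ℝ) ^ (F i).natDegree / L ^ U2 with hT
  have hsm := smCount_sum F σ x T A hA1 (B / L ^ U2) (by
    intro i
    rw [hT]
    simp only
    rw [div_mul_eq_mul_div]
    apply div_le_div_of_nonneg_right _ (by positivity)
    exact_mod_cast (hA i).2) (fun i => by rw [hT]; positivity)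
  have hsm0 : ∀ a, 0 ≤ smCount F σ x T a := by
    intro a
    unfold smCount
    exact sum_nonneg fun n _ => sum_nonneg fun i _ => by split_ifs <;> norm_num
  set e : ℝ := x / L ^ U' with he
  have he0 : 0 < e := by positivity
  set S2 := (Fintype.piFinset (fun i => Icc 1 (A i))).filter (fun a => e < smCount F σ x T a) with hS2
  have hS2c : (S2.card : ℝ) ≤ (k * B) * (∏ i, (A i : ℝ)) / L ^ (U + 1) := by
    apply markov _ _ (fun a _ => hsm0 a) e _ he0
    refine hsm.trans (le_of_eq ?_)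
    rw [he, hU2, pow_add, pow_add, pow_add L U 1]
    field_simp
  refine ⟨S1 ∪ S2, ?_, ?_⟩
  · have h5 : ((S1 ∪ S2).card : ℝ) ≤ S1.card + S2.card := by exact_mod_cast card_union_le _ _
    refine h5.trans ((add_le_add hS1 hS2c).trans ?_)
    have h6 : (∏ i, (A i : ℝ)) / L ^ U' ≤ (1 / 2) * ((∏ i, (A i : ℝ)) / L ^ U) := by
      have h7 : 2 * L ^ U ≤ L ^ U' := by
        calc 2 * L ^ U ≤ L * L ^ U := mul_le_mul_of_nonneg_right hL2 (by positivity)
          _ = L ^ (U + 1) := by ring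
          _ ≤ L ^ U' := pow_le_pow_right₀ hL1 (by omega)
      calc (∏ i, (A i : ℝ)) / L ^ U' ≤ (∏ i, (A i : ℝ)) / (2 * L ^ U) := div_le_div_of_nonneg_left hprod (by positivity) h7
        _ = _ := by field_simp
    have h7 : (k * B) * (∏ i, (A i : ℝ)) / L ^ (U + 1) ≤ (1 / 2) * ((∏ i, (A i : ℝ)) / L ^ U) := by
      have h8 : (k * B) * (∏ i, (A i : ℝ)) / L ^ (U + 1) = (k * B / L) * ((∏ i, (A i : ℝ)) / L ^ U) := by
        rw [pow_succ]; field_simp
      rw [h8]
      apply mul_le_mul_of_nonneg_right _ (by positivity)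
      rw [div_le_iff₀ hL0]
      linarith
    linarith
  · intro a ha haS X hX hXx
    rw [mem_union, not_or] at haS
    have haS2 : smCount F σ x T a ≤ e := by
      have h5 := haS.2
      rw [hS2, mem_filter, not_and, not_lt] at h5
      exact h5 ha
    have hW := hS1' a ha haS.1 X hX
    set W : ℝ := ∑ n ∈ Icc 1 x, (1 : ℝ) * ∏ i, lamP (vl F σ a i n) with hWd
    set 𝔖 : ℝ := ((Vz z)⁻¹) ^ k * ∏ p ∈ pz z, (1 - (nuB (sysQ F σ a) p : ℝ) / p) with hSd
    refine ⟨hW.trans ?_, ?_⟩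
    · apply div_le_div_of_nonneg_left hx0.le (by positivity)
      exact pow_le_pow_right₀ hL1 (by omega)
    · intro hS0 hXε
      have hPer : PerB (sysQ F σ a) m := sysQ_per F hd hl σ hσ a
      have hlow := sing_low (k := k) (sysQ F σ a) m hm1 hPer z L hL1 hV hS0
      rw [← hSd, ← hc0] at hlow
      have hSpos : 0 < 𝔖 := lt_of_lt_of_le (by positivity) hlow
      have hXr : (X : ℝ) ≤ x := by exact_mod_cast hXx
      have hX0 : (0 : ℝ) < X := lt_of_lt_of_le (by positivity) hXε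
      set ℓ := Real.log X with hℓ
      have hℓL : ℓ ≤ L := Real.log_le_log hX0 hXr
      have hℓ1 : L * (1 - η) ≤ ℓ := by
        have h5 := Real.log_le_log (by positivity) hXε
        rw [Real.log_mul hε.ne' hx0.ne'] at h5
        have h6 : Real.log x = L := rfl
        nlinarith
      have hη1 : 0 < 1 - η := by linarith
      have hℓ0 : 0 < ℓ := lt_of_lt_of_le (by positivity) hℓ1
      have hcmp := compare F σ a x (fun i => ((F i).natDegree : ℝ)) (fun i => by exact_mod_cast hd i) L η δ hL1 hη hη2 hδ.le e1 e2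
        (by
          intro n hn i hv
          rw [Fintype.mem_piFinset] at ha
          have h5 := vl_le' F σ hσ B x i (A i) (hA i).1 n (a i) hn (ha i)
          have h6 : ((vl F σ a i n : ℤ) : ℝ) ≤ cst F B * (x : ℝ) ^ (F i).natDegree := by
            have h7 : vl F σ a i n ≤ ((cst F B * x ^ (F i).natDegree : ℕ) : ℤ) := h5
            have h8 : ((vl F σ a i n : ℤ) : ℝ) ≤ (((cst F B * x ^ (F i).natDegree : ℕ) : ℤ) : ℝ) := by exact_mod_cast h7
            push_cast at h8
            exact h8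
          have h7 : (0 : ℝ) < ((vl F σ a i n : ℤ) : ℝ) := by exact_mod_cast (by omega : 0 < vl F σ a i n)
          have h8 := Real.log_le_log h7 h6
          rw [Real.log_mul (by linarith) (by positivity), Real.log_pow] at h8
          have hdi : (1 : ℝ) ≤ (F i).natDegree := by exact_mod_cast hd i
          have h9 : η * L ≤ (F i).natDegree * (η * L) := le_mul_of_one_le_left (by positivity) hdi
          have h10 : ((F i).natDegree : ℝ) * Real.log x = (F i).natDegree * L := rfl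
          calc Real.log ((vl F σ a i n : ℤ) : ℝ) ≤ Real.log (cst F B) + (F i).natDegree * Real.log x := h8
            _ ≤ (F i).natDegree * (η * L) + (F i).natDegree * L := by rw [h10]; linarith
            _ = _ := by ring) T (by
          intro n hn i hv
          have hT0 : 0 < T i := by rw [hT]; positivity
          have h5 := Real.log_le_log hT0 hv.le
          have h6 : Real.log (T i) = (F i).natDegree * L - U2 * Real.log L := by
            rw [hT]
            simp only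
            rw [Real.log_div (by positivity) (by positivity), Real.log_pow, Real.log_pow]
          rw [h6] at h5
          have hdi : (1 : ℝ) ≤ (F i).natDegree := by exact_mod_cast hd i
          have h9 : η * L ≤ (F i).natDegree * (η * L) := le_mul_of_one_le_left (by positivity) hdi
          calc ((F i).natDegree : ℝ) * L * (1 - η) = (F i).natDegree * L - (F i).natDegree * (η * L) := by ring
            _ ≤ (F i).natDegree * L - U2 * Real.log L := by linarith
            _ ≤ _ := h5)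
      obtain ⟨hc1, hc2⟩ := hcmp
      rw [← hDp] at hc1 hc2
      have hK1 : 1 ≤ Dp * L ^ k := by
        have : 1 ≤ L ^ k := one_le_pow₀ hL1
        nlinarith
      have hKe : Dp * L ^ k * e ≤ δ * (𝔖 * X) := by
        have h5 : δ * (c0 / L ^ m * (ε * x)) ≤ δ * (𝔖 * X) := by
          apply mul_le_mul_of_nonneg_left _ hδ.le
          exact mul_le_mul hlow hXε (by positivity) hSpos.le
        refine le_trans ?_ h5
        have h6 : Dp ≤ δ * c0 * ε * L := by
          rw [div_le_iff₀ (by positivity)] at hLb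
          linarith
        have h7 : Dp * L ^ k * e = Dp * x / L ^ (U + m + 2) := by
          rw [he, hU', show U + m + k + 2 = (U + m + 2) + k by ring, pow_add L (U + m + 2) k]
          field_simp
        have h8 : δ * (c0 / L ^ m * (ε * x)) = (δ * c0 * ε * L) * L ^ (U + 1) * x / L ^ (U + m + 2) := by
          rw [show U + m + 2 = (U + 1) + 1 + m by ring, pow_add L ((U + 1) + 1) m, pow_add L (U + 1) 1]
          field_simp
        rw [h7, h8]
        apply div_le_div_of_nonneg_right _ (by positivity)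
        apply mul_le_mul_of_nonneg_right _ hx0.le
        have h9 : 1 ≤ L ^ (U + 1) := one_le_pow₀ hL1
        have h10 : 0 < δ * c0 * ε * L := by positivity
        nlinarith
      have hfin := fin_ineq δ (𝔖 * X) (Dp * L ^ k) (Dp * ℓ ^ k) (prCount F σ a x) W e hδ hδ4 (by positivity) hK1 (by positivity)
        (by
          apply mul_le_mul_of_nonneg_left _ (by linarith)
          exact pow_le_pow_left₀ hℓ0.le hℓL _)
        (by
          have h5 : L ^ k ≤ (1 + δ) * ℓ ^ k := by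
            calc L ^ k = L ^ k * 1 := (mul_one _).symm
              _ ≤ L ^ k * ((1 + δ) * (1 - η) ^ k) := mul_le_mul_of_nonneg_left e1 (by positivity)
              _ = (1 + δ) * (L * (1 - η)) ^ k := by rw [mul_pow]; ring
              _ ≤ (1 + δ) * ℓ ^ k := by
                  apply mul_le_mul_of_nonneg_left _ (by linarith)
                  exact pow_le_pow_left₀ (by positivity) hℓ1 _
          calc Dp * L ^ k ≤ Dp * ((1 + δ) * ℓ ^ k) := mul_le_mul_of_nonneg_left h5 (by linarith)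
            _ = _ := by ring)
        (Nat.cast_nonneg _) hW hKe hc1 (by
          refine hc2.trans ?_
          have h5 : Dp * L ^ k * smCount F σ x T a ≤ Dp * L ^ k * e := mul_le_mul_of_nonneg_left haS2 (by positivity)
          linarith)
      have h4δ : 4 * δ = ε := by rw [hδd]; ring
      rw [h4δ] at hfin
      exact hfin

end Pool.Agent.H373R2.T7
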