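import Mathlib
import Pool.Agent.H49.G.R_seed8.H373R2.T7.SHN

/-! Schinzel's hypothesis for `F_1(n), ..., F_g(n), N - G(n)`: the counting functions without a cut-off. -/

namespace Pool.Agent.H373R2.T7.SHN
open Finset Polynomial

variable {g : ℕ}

/-- the number of positive integers `n` such that `F_1(n) + a_1, ..., F_g(n) + a_g` and `N - G(n)` are all positive primes -/
noncomputable def Q1 (F : Fin g → ℤ[X]) (a : Fin g → ℕ) (G : ℤ[X]) (N : ℕ) : ℕ :=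
  {n : ℕ | 1 ≤ n ∧ AllPrime F a G N n}.ncard

/-- the sum of `log (N - G(n)) ∏ log (F_i(n) + a_i)` over these `n` -/
noncomputable def W1 (F : Fin g → ℤ[X]) (a : Fin g → ℕ) (G : ℤ[X]) (N : ℕ) : ℝ :=
  ∑ᶠ n ∈ {n : ℕ | 1 ≤ n ∧ AllPrime F a G N n},
    Real.log ((N : ℝ) - ((G.eval (n : ℤ) : ℤ) : ℝ)) * ∏ i, Real.log ((((F i).eval (n : ℤ) : ℤ) : ℝ) + a i)

/-- the number of positive integers `n` with `N - G(n) > 0` -/
noncomputable def X1 (G : ℤ[X]) (N : ℕ) : ℕ := {n : ℕ | 1 ≤ n ∧ 0 < (N : ℤ) - G.eval (n : ℤ)}.ncard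

lemma set_eq (F : Fin g → ℤ[X]) (a : Fin g → ℕ) (G : ℤ[X]) (N x : ℕ) (h : ∀ n : ℕ, x < n → (N : ℤ) ≤ G.eval (n : ℤ))
    [DecidablePred (fun n => AllPrime F a G N n)] :
    {n : ℕ | 1 ≤ n ∧ AllPrime F a G N n} = ((((Icc 1 x).filter (fun n => AllPrime F a G N n) : Finset ℕ)) : Set ℕ) := by
  ext n
  rw [mem_coe, mem_filter, mem_Icc]
  constructor
  · rintro ⟨h1, h2⟩
    refine ⟨⟨h1, ?_⟩, h2⟩
    by_contra h3
    have h4 := h n (by omega)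
    have h5 := h2.2
    rw [show ((N : ℤ) - G.eval (n : ℤ)).toNat = 0 by omega] at h5
    exact Nat.not_prime_zero h5
  · rintro ⟨h1, h2⟩
    exact ⟨h1.1, h2⟩

lemma Q1_eq (F : Fin g → ℤ[X]) (a : Fin g → ℕ) (G : ℤ[X]) (N x : ℕ) (h : ∀ n : ℕ, x < n → (N : ℤ) ≤ G.eval (n : ℤ)) :
    Q1 F a G N = primeCount F a G N x := by
  classical
  unfold Q1 primeCount
  rw [set_eq F a G N x h, Set.ncard_coe_finset]

lemma W1_eq (F : Fin g → ℤ[X]) (a : Fin g → ℕ) (G : ℤ[X]) (N x : ℕ) (h : ∀ n : ℕ, x < n → (N : ℤ) ≤ G.eval (n : ℤ)) :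
    W1 F a G N = weightedCount F a G N x := by
  classical
  unfold W1 weightedCount
  rw [set_eq F a G N x h, finsum_mem_coe_finset]

lemma X1_eq (G : ℤ[X]) (N x : ℕ) (h : ∀ n : ℕ, x < n → (N : ℤ) ≤ G.eval (n : ℤ)) :
    X1 G N = XCount G N x := by
  classical
  unfold X1 XCount
  have e : {n : ℕ | 1 ≤ n ∧ 0 < (N : ℤ) - G.eval (n : ℤ)} = ((((Icc 1 x).filter (fun n : ℕ => 0 < (N : ℤ) - G.eval (n : ℤ)) : Finset ℕ)) : Set ℕ) := by
    ext n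
    rw [mem_coe, mem_filter, mem_Icc]
    constructor
    · rintro ⟨h1, h2⟩
      refine ⟨⟨h1, ?_⟩, h2⟩
      by_contra h3
      have h4 := h n (by omega)
      omega
    · rintro ⟨h1, h2⟩
      exact ⟨h1.1, h2⟩
  rw [e, Set.ncard_coe_finset]

end Pool.Agent.H373R2.T7.SHN
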