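import Mathlib
import Pool.Agent.H49.G.R_seed8.H373R2.T7.SHN2
import Pool.Agent.H49.G.R_seed8.H373R2.T7.Sys8

/-! Schinzel's hypothesis for `F_1(n), ..., F_g(n), N - G(n)`: the theorem. -/

namespace Pool.Agent.H373R2.T7.SHN
open Finset Polynomial

variable {g : ℕ}

/-- `(F_1 + a_1) ... (F_g + a_g) (N - G)` has no fixed prime divisor -/
def NoFixedDivisor (F : Fin g → ℤ[X]) (a : Fin g → ℕ) (G : ℤ[X]) (N : ℕ) : Prop :=
  ∀ p : ℕ, p.Prime → ∃ n : ℤ, ¬ (p : ℤ) ∣ (∏ i, ((F i).eval n + a i)) * (N - G.eval n)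

lemma omega_lt (F : Fin g → ℤ[X]) (a : Fin g → ℕ) (G : ℤ[X]) (N : ℕ) (h : NoFixedDivisor F a G N) (p : ℕ) (hp : p.Prime) :
    omega F a G N p < p := by
  classical
  obtain ⟨n, hn⟩ := h p hp
  set P : ℤ[X] := (∏ i, (F i + C (a i : ℤ))) * (C (N : ℤ) - G) with hP
  have hev : ∀ m : ℤ, P.eval m = (∏ i, ((F i).eval m + a i)) * (N - G.eval m) := by
    intro m
    rw [hP, eval_mul, eval_prod]
    simp
  have hp0 : (0 : ℤ) < p := by exact_mod_cast hp.pos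
  set r : ℕ := (n % (p : ℤ)).toNat with hr
  have hr1 : (r : ℤ) = n % p := Int.toNat_of_nonneg (Int.emod_nonneg _ hp0.ne')
  have hr2 : r < p := by
    have := Int.emod_lt_of_pos n hp0
    omega
  have hr3 : ¬ (p : ℤ) ∣ P.eval (r : ℤ) := by
    intro hd
    apply hn
    rw [← hev]
    have h1 : (n - (r : ℤ)) ∣ P.eval n - P.eval (r : ℤ) := sub_dvd_eval_sub _ _ _
    have h2 : (p : ℤ) ∣ n - (r : ℤ) := by
      rw [hr1]
      exact Int.dvd_self_sub_emod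
    exact (dvd_iff_dvd_of_dvd_sub (h2.trans h1)).2 hd
  have h3 : omega F a G N p ≤ ((range p).erase r).card := by
    unfold omega
    apply card_le_card
    intro s hs
    rw [mem_filter] at hs
    rw [mem_erase]
    refine ⟨?_, hs.1⟩
    rintro rfl
    apply hr3
    rw [hev]
    exact hs.2
  rw [card_erase_of_mem (mem_range.2 hr2), card_range] at h3
  have := hp.pos
  omega

lemma sing_ne_zero (F : Fin g → ℤ[X]) (a : Fin g → ℕ) (G : ℤ[X]) (N z : ℕ) (h : NoFixedDivisor F a G N) :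
    sing F a G N z ≠ 0 := by
  unfold sing
  rw [prod_ne_zero_iff]
  intro p hp
  have hpp := (mem_filter.1 hp).2
  have hp0 : (0 : ℝ) < p := by exact_mod_cast hpp.pos
  have hp1 : (1 : ℝ) < p := by exact_mod_cast hpp.one_lt
  have h1 : (omega F a G N p : ℝ) < p := by exact_mod_cast omega_lt F a G N h p hpp
  have h2 : (omega F a G N p : ℝ) / p < 1 := by rw [div_lt_one hp0]; exact h1
  have h3 : 1 / (p : ℝ) < 1 := by rw [div_lt_one hp0]; exact hp1
  apply div_ne_zero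
  · linarith
  · apply pow_ne_zero
    linarith

lemma prCount_eq (F : Fin g → ℤ[X]) (a : Fin g → ℕ) (G : ℤ[X]) (N x : ℕ) :
    prCount (sF F G) sσ (sA N a) x = primeCount F a G N x := by
  classical
  unfold prCount primeCount
  congr 1
  apply filter_congr
  intro n _
  unfold AllPrime
  rw [Fin.forall_fin_succ, vl_zero]
  simp only [vl_succ]
  exact and_comm

lemma XCount_le (G : ℤ[X]) (N x : ℕ) : XCount G N x ≤ x := by
  unfold XCount
  exact (card_filter_le _ _).trans (by rw [Nat.card_Icc]; omega)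

/-- the expected number -/
noncomputable def expected (F : Fin g → ℤ[X]) (a : Fin g → ℕ) (G : ℤ[X]) (N z : ℕ) : ℝ :=
  sing F a G N z * X1 G N / ((G.natDegree * ∏ i, ((F i).natDegree : ℝ)) * Real.log (X1 G N) ^ (g + 1))

set_option maxHeartbeats 1000000 in
open Classical in
theorem full_main (F : Fin g → ℤ[X]) (hF : ∀ i, 1 ≤ (F i).natDegree) (hFl : ∀ i, 0 < (F i).leadingCoeff)
    (G : ℤ[X]) (hG : 1 ≤ G.natDegree) (hGl : 0 < G.leadingCoeff) (B : ℕ) (hB : 1 ≤ B) (U : ℕ) (ε : ℝ) (hε : 0 < ε) :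
    ∃ B0 : ℕ, ∀ E : ℕ, ∃ x0 : ℕ, ∀ x : ℕ, x0 ≤ x → ∀ M : ℕ, M ≤ B * x ^ G.natDegree → x ^ G.natDegree ≤ B * M →
      (∀ n : ℕ, x < n → (M : ℤ) ≤ G.eval (n : ℤ)) →
      ∀ A : Fin g → ℕ, (∀ i, A i ≤ B * x ^ (F i).natDegree ∧ x ^ (F i).natDegree ≤ B * A i) →
      ∀ z : ℕ, Real.log x ^ B0 ≤ z → (z : ℝ) ≤ Real.log x ^ E →
      (((Icc 1 M ×ˢ Fintype.piFinset (fun i => Icc 1 (A i))).filter (fun q : ℕ × (Fin g → ℕ) =>
        ¬ (|W1 F q.2 G q.1 - sing F q.2 G q.1 z * X1 G q.1| ≤ x / Real.log x ^ U ∧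
          (NoFixedDivisor F q.2 G q.1 → ε * x ≤ X1 G q.1 →
            |(Q1 F q.2 G q.1 : ℝ) - expected F q.2 G q.1 z| ≤ ε * expected F q.2 G q.1 z)))).card : ℝ) ≤
        (M * ∏ i, (A i : ℝ)) / Real.log x ^ U := by
  obtain ⟨C, hC⟩ := X_pos F hF hFl G
  set ε' := min ε 1 with hε'
  have hε'0 : 0 < ε' := lt_min hε one_pos
  have hε'ε : ε' ≤ ε := min_le_left _ _
  obtain ⟨B0, hB0⟩ := sys_unweighted (sF F G) (sF_deg F G hF hG) (sF_lc F G hFl hGl) sσ sσ_pm B hB U C ε' hε'0 (min_le_right _ _)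
  refine ⟨B0, fun E => ?_⟩
  obtain ⟨x0, h0⟩ := hB0 E
  refine ⟨max x0 1, fun x hx M hM1 hM2 hM3 A hA z hz1 hz2 => ?_⟩
  have hx1 : 1 ≤ x := le_trans (le_max_right _ _) hx
  have hx0 : (0 : ℝ) ≤ x := Nat.cast_nonneg _
  obtain ⟨S, hS1, hS2⟩ := h0 x (le_trans (le_max_left _ _) hx) (sA M A) (by
    intro i
    refine Fin.cases ?_ (fun j => ?_) i
    · simpa [sA, sF] using ⟨hM1, hM2⟩
    · simpa [sA, sF] using hA j) z hz1 hz2
  rw [prod_sA] at hS1
  refine le_trans ?_ hS1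
  have hdeg : ∏ i, ((sF F G i).natDegree : ℝ) = G.natDegree * ∏ i, ((F i).natDegree : ℝ) := by
    rw [Fin.prod_univ_succ]
    simp [sF]
  have h1 := card_transfer M A S (fun q : ℕ × (Fin g → ℕ) =>
        ¬ (|W1 F q.2 G q.1 - sing F q.2 G q.1 z * X1 G q.1| ≤ x / Real.log x ^ U ∧
          (NoFixedDivisor F q.2 G q.1 → ε * x ≤ X1 G q.1 →
            |(Q1 F q.2 G q.1 : ℝ) - expected F q.2 G q.1 z| ≤ ε * expected F q.2 G q.1 z))) (by
    intro q hq hP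
    by_contra hqS
    apply hP
    have hq' := hq
    rw [mem_product, Fintype.mem_piFinset, mem_Icc] at hq'
    have hcut : ∀ n : ℕ, x < n → (q.1 : ℤ) ≤ G.eval (n : ℤ) := by
      intro n hn
      have h2 : (q.1 : ℤ) ≤ M := by exact_mod_cast hq'.1.2
      exact h2.trans (hM3 n hn)
    have h2 := hS2 (sA q.1 q.2) (mem_box M A q hq) hqS (XCount G q.1 x) (hC q.2 q.1 x (fun i => (mem_Icc.1 (hq'.2 i)).1)) (XCount_le _ _ _)
    rw [← weighted_eq, ← sing_eq, prCount_eq, hdeg] at h2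
    unfold expected
    rw [W1_eq F q.2 G q.1 x hcut, X1_eq G q.1 x hcut, Q1_eq F q.2 G q.1 x hcut]
    refine ⟨h2.1, fun hN hX => ?_⟩
    have h3 := h2.2 (sing_ne_zero F q.2 G q.1 z hN) (le_trans (mul_le_mul_of_nonneg_right hε'ε hx0) hX)
    refine h3.trans ?_
    apply mul_le_mul_of_nonneg_right hε'ε
    have h4 := (abs_nonneg _).trans h3
    exact nonneg_of_mul_nonneg_right h4 hε'0)
  exact_mod_cast h1

end Pool.Agent.H373R2.T7.SHN
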