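import Mathlib
import Pool.Agent.H49.G.R_seed8.H373R2.T7.TB1

/-! `N - G(n)` prime and `F_1(n), ..., F_g(n)` without small prime factors, for almost all `N`: the ingredients. -/

namespace Pool.Agent.H373R2.T7.TB
open Finset Polynomial

variable {g : ℕ}

/-- the `L¹` bound for a single polynomial -/
lemma l1_one (G : ℤ[X]) (hG : 1 ≤ G.natDegree) (hGl : 0 < G.leadingCoeff) (B : ℕ) (hB : 1 ≤ B) (U : ℕ) :
    ∃ B0 : ℕ, ∀ E : ℕ, ∃ N0 : ℕ, ∀ x : ℕ, N0 ≤ x → ∀ M : ℕ, M ≤ B * x ^ G.natDegree → x ^ G.natDegree ≤ B * M →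
      ∀ z : ℕ, Real.log x ^ B0 ≤ z → (z : ℝ) ≤ Real.log x ^ E →
      ∀ w : ℕ → ℝ, (∀ n ∈ Icc 1 x, |w n| ≤ Real.log x) →
      ∑ N ∈ Icc 1 M, |∑ n ∈ Icc 1 x, w n * (lamP ((N : ℤ) - G.eval (n : ℤ)) - lamzI z ((N : ℤ) - G.eval (n : ℤ)))| ≤
        x * M / Real.log x ^ U := by
  obtain ⟨B0, hB0⟩ := sys_diffP (fun _ : Fin 1 => G) (fun _ => hG) (fun _ => hGl) (fun _ => -1) (fun _ => Or.inr rfl) B hB U
  refine ⟨B0, fun E => ?_⟩
  obtain ⟨N0, h0⟩ := hB0 E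
  refine ⟨N0, fun x hx M hM1 hM2 z hz1 hz2 w hw => ?_⟩
  have h := h0 x hx (fun _ => M) (fun _ => ⟨hM1, hM2⟩) z hz1 hz2 w hw
  have e1 : ∏ _i : Fin 1, (M : ℝ) = M := by simp
  rw [e1] at h
  refine le_trans (le_of_eq ?_) h
  refine sum_nbij' (fun N => (fun _ => N : Fin 1 → ℕ)) (fun a => a 0) ?_ ?_ ?_ ?_ ?_
  · intro N hN
    rw [Fintype.mem_piFinset]
    intro _
    exact hN
  · intro a ha
    exact (Fintype.mem_piFinset.1 ha) 0
  · intro N _
    rfl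
  · intro a _
    funext i
    rw [Subsingleton.elim i 0]
  · intro N _
    have hv : ∀ n : ℕ, vl (fun _ : Fin 1 => G) (fun _ => -1) (fun _ => N) 0 n = (N : ℤ) - G.eval (n : ℤ) := by
      intro n
      unfold vl
      ring
    simp only [Fin.prod_univ_one, Fin.isValue, hv]

/-- the number of small values -/
noncomputable def smC (G : ℤ[X]) (x : ℕ) (T : ℝ) (N : ℕ) : ℝ := by
  classical exact ∑ n ∈ Icc 1 x, if 1 ≤ (N : ℤ) - G.eval (n : ℤ) ∧ (((N : ℤ) - G.eval (n : ℤ) : ℤ) : ℝ) ≤ T then (1 : ℝ) else 0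

lemma smC_sum (G : ℤ[X]) (x M : ℕ) (T : ℝ) (hT : 0 ≤ T) : ∑ N ∈ Icc 1 M, smC G x T N ≤ x * T := by
  classical
  unfold smC
  rw [sum_comm]
  have h1 : ∀ n ∈ Icc 1 x, ∑ N ∈ Icc 1 M, (if 1 ≤ (N : ℤ) - G.eval (n : ℤ) ∧ (((N : ℤ) - G.eval (n : ℤ) : ℤ) : ℝ) ≤ T then (1 : ℝ) else 0) ≤ T := by
    intro n _
    rw [← sum_filter, sum_const, nsmul_eq_mul, mul_one]
    have h3 : ((Icc 1 M).filter (fun N : ℕ => 1 ≤ (N : ℤ) - G.eval (n : ℤ) ∧ (((N : ℤ) - G.eval (n : ℤ) : ℤ) : ℝ) ≤ T)).card ≤ ⌊T⌋₊ := by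
      calc _ ≤ (Icc 1 ⌊T⌋₊).card := by
            apply card_le_card_of_injOn (fun N : ℕ => ((N : ℤ) - G.eval (n : ℤ)).toNat)
            · intro v hv
              rw [mem_coe, mem_filter] at hv
              obtain ⟨_, h4, h5⟩ := hv
              have h6 : ((((v : ℤ) - G.eval (n : ℤ)).toNat : ℕ) : ℝ) = (((v : ℤ) - G.eval (n : ℤ) : ℤ) : ℝ) := by
                have := Int.toNat_of_nonneg (show 0 ≤ (v : ℤ) - G.eval (n : ℤ) by omega)
                have h7 : (((((v : ℤ) - G.eval (n : ℤ)).toNat : ℕ) : ℤ) : ℝ) = (((v : ℤ) - G.eval (n : ℤ) : ℤ) : ℝ) := by rw [this]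
                exact_mod_cast h7
              have h8 : 1 ≤ ((v : ℤ) - G.eval (n : ℤ)).toNat := by omega
              have h9 : ((v : ℤ) - G.eval (n : ℤ)).toNat ≤ ⌊T⌋₊ := Nat.le_floor (by rw [h6]; exact h5)
              exact mem_coe.2 (mem_Icc.2 ⟨h8, h9⟩)
            · intro v hv v' hv' h
              rw [mem_coe, mem_filter] at hv hv'
              have h4 := hv.2.1
              have h5 := hv'.2.1
              simp only at h
              omega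
        _ = ⌊T⌋₊ := by rw [Nat.card_Icc]; omega
    exact (by exact_mod_cast h3 : _ ≤ ((⌊T⌋₊ : ℕ) : ℝ)).trans (Nat.floor_le hT)
  refine (sum_le_sum h1).trans (le_of_eq ?_)
  rw [sum_const, nsmul_eq_mul, Nat.card_Icc, Nat.add_sub_cancel]

lemma smC_nonneg (G : ℤ[X]) (x : ℕ) (T : ℝ) (N : ℕ) : 0 ≤ smC G x T N := by
  unfold smC
  exact sum_nonneg fun n _ => by split_ifs <;> norm_num

open Classical in
/-- the rough indicator -/
noncomputable def rw1 (F : Fin g → ℤ[X]) (y n : ℕ) : ℝ := if Rough F y n then 1 else 0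

lemma rw1_nonneg (F : Fin g → ℤ[X]) (y n : ℕ) : 0 ≤ rw1 F y n := by
  unfold rw1; split_ifs <;> norm_num

lemma rw1_le (F : Fin g → ℤ[X]) (y n : ℕ) : rw1 F y n ≤ 1 := by
  unfold rw1; split_ifs <;> norm_num

/-- the number of `n ≤ x` -/
noncomputable def Rx (F : Fin g → ℤ[X]) (G : ℤ[X]) (N y x : ℕ) : ℝ := by
  classical exact ∑ n ∈ Icc 1 x, rw1 F y n * (if ((N : ℤ) - G.eval (n : ℤ)).toNat.Prime then (1 : ℝ) else 0)

lemma R1_eq (F : Fin g → ℤ[X]) (G : ℤ[X]) (N y x : ℕ) (h : ∀ n : ℕ, x < n → (N : ℤ) ≤ G.eval (n : ℤ)) :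
    (R1 F G N y : ℝ) = Rx F G N y x := by
  classical
  have e : {n : ℕ | 1 ≤ n ∧ ((N : ℤ) - G.eval (n : ℤ)).toNat.Prime ∧ Rough F y n} =
      ((((Icc 1 x).filter (fun n : ℕ => ((N : ℤ) - G.eval (n : ℤ)).toNat.Prime ∧ Rough F y n) : Finset ℕ)) : Set ℕ) := by
    ext n
    rw [mem_coe, mem_filter, mem_Icc]
    constructor
    · rintro ⟨h1, h2⟩
      refine ⟨⟨h1, ?_⟩, h2⟩
      by_contra h3
      have h4 := h n (by omega)
      have h5 := h2.1
      rw [show ((N : ℤ) - G.eval (n : ℤ)).toNat = 0 by omega] at h5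
      exact Nat.not_prime_zero h5
    · rintro ⟨h1, h2⟩
      exact ⟨h1.1, h2⟩
  unfold R1 Rx
  rw [e, Set.ncard_coe_finset, card_filter]
  push_cast
  apply sum_congr rfl
  intro n _
  unfold rw1
  by_cases h1 : Rough F y n
  · by_cases h2 : ((N : ℤ) - G.eval (n : ℤ)).toNat.Prime
    · rw [if_pos ⟨h2, h1⟩, if_pos h1, if_pos h2, one_mul]
    · rw [if_neg (fun h => h2 h.1), if_neg h2, mul_zero]
  · rw [if_neg (fun h => h1 h.2), if_neg h1, zero_mul]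

/-- comparison of weighted and unweighted counts -/
lemma cmp_w (F : Fin g → ℤ[X]) (G : ℤ[X]) (N y x : ℕ) (d : ℝ) (hd : 0 < d)
    (L η δ : ℝ) (hL : 1 ≤ L) (hδ : 0 ≤ δ) (e1 : 1 ≤ (1 + δ) * (1 - η)) (e2 : 1 + η ≤ 1 + δ)
    (hup : ∀ n ∈ Icc 1 x, 1 ≤ (N : ℤ) - G.eval (n : ℤ) → Real.log (((N : ℤ) - G.eval (n : ℤ) : ℤ) : ℝ) ≤ d * L * (1 + η))
    (T : ℝ) (hlo : ∀ n ∈ Icc 1 x, T < (((N : ℤ) - G.eval (n : ℤ) : ℤ) : ℝ) → d * L * (1 - η) ≤ Real.log (((N : ℤ) - G.eval (n : ℤ) : ℤ) : ℝ)) :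
    ∑ n ∈ Icc 1 x, rw1 F y n * lamP ((N : ℤ) - G.eval (n : ℤ)) ≤ (1 + δ) * ((d * L) * Rx F G N y x) ∧
    (d * L) * Rx F G N y x ≤ (1 + δ) * ∑ n ∈ Icc 1 x, rw1 F y n * lamP ((N : ℤ) - G.eval (n : ℤ)) + (d * L) * smC G x T N := by
  classical
  have hK0 : 0 < d * L := by positivity
  constructor
  · unfold Rx
    rw [mul_sum, mul_sum]
    apply sum_le_sum
    intro n hn
    have hr := rw1_nonneg F y n
    by_cases h : ((N : ℤ) - G.eval (n : ℤ)).toNat.Prime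
    · rw [if_pos h, mul_one]
      obtain ⟨h1, h2⟩ := lamP_prime _ h
      rw [h1]
      have h3 := hup n hn h2
      have h4 : d * L * (1 + η) ≤ d * L * (1 + δ) := mul_le_mul_of_nonneg_left e2 hK0.le
      calc _ ≤ rw1 F y n * (d * L * (1 + δ)) := mul_le_mul_of_nonneg_left (h3.trans h4) hr
        _ = _ := by ring
    · rw [if_neg h]
      unfold lamP
      rw [if_neg h]
      simp
  · have e0 : (1 + δ) * ∑ n ∈ Icc 1 x, rw1 F y n * lamP ((N : ℤ) - G.eval (n : ℤ)) + (d * L) * smC G x T N =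
        ∑ n ∈ Icc 1 x, ((1 + δ) * (rw1 F y n * lamP ((N : ℤ) - G.eval (n : ℤ))) +
          (d * L) * (if 1 ≤ (N : ℤ) - G.eval (n : ℤ) ∧ (((N : ℤ) - G.eval (n : ℤ) : ℤ) : ℝ) ≤ T then (1 : ℝ) else 0)) := by
      unfold smC
      rw [sum_add_distrib, ← mul_sum, ← mul_sum]
    rw [e0]
    unfold Rx
    rw [mul_sum]
    apply sum_le_sum
    intro n hn
    have hr := rw1_nonneg F y n
    have hr1 := rw1_le F y n
    have hl := lamP_nonneg ((N : ℤ) - G.eval (n : ℤ))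
    have hi0 : 0 ≤ (if 1 ≤ (N : ℤ) - G.eval (n : ℤ) ∧ (((N : ℤ) - G.eval (n : ℤ) : ℤ) : ℝ) ≤ T then (1 : ℝ) else 0) := by
      split_ifs <;> norm_num
    have hA : 0 ≤ (1 + δ) * (rw1 F y n * lamP ((N : ℤ) - G.eval (n : ℤ))) := mul_nonneg (by linarith) (mul_nonneg hr hl)
    have hB : 0 ≤ (d * L) * (if 1 ≤ (N : ℤ) - G.eval (n : ℤ) ∧ (((N : ℤ) - G.eval (n : ℤ) : ℤ) : ℝ) ≤ T then (1 : ℝ) else 0) :=
      mul_nonneg hK0.le hi0
    by_cases h : ((N : ℤ) - G.eval (n : ℤ)).toNat.Prime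
    · rw [if_pos h, mul_one]
      obtain ⟨h1, h2⟩ := lamP_prime _ h
      by_cases h3 : T < (((N : ℤ) - G.eval (n : ℤ) : ℤ) : ℝ)
      · have h4 := hlo n hn h3
        rw [← h1] at h4
        have h5 : d * L ≤ (1 + δ) * lamP ((N : ℤ) - G.eval (n : ℤ)) := by
          calc d * L = d * L * 1 := (mul_one _).symm
            _ ≤ d * L * ((1 + δ) * (1 - η)) := mul_le_mul_of_nonneg_left e1 hK0.le
            _ = (1 + δ) * (d * L * (1 - η)) := by ring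
            _ ≤ _ := mul_le_mul_of_nonneg_left h4 (by linarith)
        have h6 : d * L * rw1 F y n ≤ (1 + δ) * (rw1 F y n * lamP ((N : ℤ) - G.eval (n : ℤ))) := by
          calc d * L * rw1 F y n ≤ ((1 + δ) * lamP ((N : ℤ) - G.eval (n : ℤ))) * rw1 F y n := mul_le_mul_of_nonneg_right h5 hr
            _ = _ := by ring
        linarith
      · push Not at h3
        rw [if_pos ⟨h2, h3⟩, mul_one]
        have h6 : d * L * rw1 F y n ≤ d * L * 1 := mul_le_mul_of_nonneg_left hr1 hK0.le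
        linarith
    · rw [if_neg h, mul_zero, mul_zero]
      linarith

/-- the model -/
lemma model_card (F : Fin g → ℤ[X]) (G : ℤ[X]) (N z y x : ℕ) (hzy : z ≤ y) :
    by classical exact ∑ n ∈ Icc 1 x, rw1 F y n * lamzI z ((N : ℤ) - G.eval (n : ℤ)) =
      (Vz z)⁻¹ * (((Icc 1 x).filter (fun n : ℕ => 1 ≤ (N : ℤ) - G.eval (n : ℤ) ∧ ∀ p ∈ pz y, ¬ Qc F G N z p n)).card : ℝ) := by
  classical
  rw [card_filter]
  push_cast
  rw [mul_sum]
  apply sum_congr rfl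
  intro n _
  by_cases h1 : 1 ≤ (N : ℤ) - G.eval (n : ℤ)
  · have h4 : ((((N : ℤ) - G.eval (n : ℤ)).toNat : ℕ) : ℤ) = (N : ℤ) - G.eval (n : ℤ) := Int.toNat_of_nonneg (by omega)
    by_cases h2 : ∀ p ∈ pz y, ¬ Qc F G N z p n
    · rw [if_pos ⟨h1, h2⟩, mul_one]
      have hR : Rough F y n := by
        intro p hp hpy i hd
        exact h2 p (mem_pz.2 ⟨hpy, hp⟩) (Or.inl ⟨i, hd⟩)
      unfold rw1 lamzI lamz
      rw [if_pos hR, if_pos h1, if_pos, one_mul]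
      intro p hp hd
      refine h2 p (mem_pz.2 ⟨(mem_pz.1 hp).1.trans hzy, (mem_pz.1 hp).2⟩) (Or.inr ⟨(mem_pz.1 hp).1, ?_⟩)
      rw [← h4]
      exact_mod_cast hd
    · rw [if_neg (fun h => h2 h.2), mul_zero]
      push Not at h2
      obtain ⟨p, hp, hQ⟩ := h2
      rcases hQ with ⟨i, hi⟩ | ⟨hpz, hd⟩
      · unfold rw1
        rw [if_neg, zero_mul]
        intro hR
        exact hR p (mem_pz.1 hp).2 (mem_pz.1 hp).1 i hi
      · unfold lamzI lamz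
        rw [if_pos h1, if_neg, mul_zero]
        intro h
        apply h p (mem_pz.2 ⟨hpz, (mem_pz.1 hp).2⟩)
        rw [← h4] at hd
        exact_mod_cast hd
  · rw [if_neg (fun h => h1 h.1), mul_zero]
    unfold lamzI
    rw [if_neg h1, mul_zero]

/-- initial segments -/
lemma seg_one (G : ℤ[X]) (hG : 1 ≤ G.natDegree) (hGl : 0 < G.leadingCoeff) :
    ∃ n0 : ℕ, 1 ≤ n0 ∧ ∀ N : ℕ, 1 ≤ N → ∀ x : ℕ, ∃ X : ℕ, X ≤ x ∧ ∀ n ∈ Icc n0 x, (1 ≤ (N : ℤ) - G.eval (n : ℤ) ↔ n ≤ X) := by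
  obtain ⟨n0, h0, h⟩ := seg_init (fun _ : Fin 1 => G) (fun _ => hG) (fun _ => hGl) (fun _ => -1) (fun _ => Or.inr rfl)
  refine ⟨n0, h0, fun N hN x => ?_⟩
  obtain ⟨X, hX, h1⟩ := h (fun _ => N) (fun _ => hN) x
  refine ⟨X, hX, fun n hn => ?_⟩
  rw [← h1 n hn]
  have hv : ∀ i : Fin 1, vl (fun _ : Fin 1 => G) (fun _ => -1) (fun _ => N) i n = (N : ℤ) - G.eval (n : ℤ) := by
    intro i
    unfold vl
    ring
  simp only [hv]
  constructor
  · intro h _; exact h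
  · intro h; exact h 0

open Classical in
lemma seg_card (P : ℕ → Prop) (R : ℕ → Prop) (n0 x X : ℕ) (hX : X ≤ x) (h : ∀ n ∈ Icc n0 x, (P n ↔ n ≤ X)) :
    |(((Icc 1 x).filter (fun n => P n ∧ R n)).card : ℝ) - ((Icc 1 X).filter (fun n => R n)).card| ≤ n0 := by
  have h4 : ((Icc 1 x).filter (fun n => P n ∧ R n)).card ≤ ((Icc 1 X).filter (fun n => R n)).card + n0 := by
    calc _ ≤ ((Icc 1 X).filter (fun n => R n) ∪ range n0).card := by
          apply card_le_card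
          intro n hn
          rw [mem_filter, mem_Icc] at hn
          rw [mem_union, mem_filter, mem_Icc, mem_range]
          rcases Nat.lt_or_ge n n0 with h5 | h5
          · exact Or.inr h5
          · exact Or.inl ⟨⟨hn.1.1, (h n (mem_Icc.2 ⟨h5, hn.1.2⟩)).1 hn.2.1⟩, hn.2.2⟩
      _ ≤ _ := (card_union_le _ _).trans (by rw [card_range])
  have h5 : ((Icc 1 X).filter (fun n => R n)).card ≤ ((Icc 1 x).filter (fun n => P n ∧ R n)).card + n0 := by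
    calc _ ≤ ((Icc 1 x).filter (fun n => P n ∧ R n) ∪ range n0).card := by
          apply card_le_card
          intro n hn
          rw [mem_filter, mem_Icc] at hn
          rw [mem_union, mem_filter, mem_Icc, mem_range]
          rcases Nat.lt_or_ge n n0 with h5 | h5
          · exact Or.inr h5
          · exact Or.inl ⟨⟨hn.1.1, hn.1.2.trans hX⟩, (h n (mem_Icc.2 ⟨h5, hn.1.2.trans hX⟩)).2 hn.1.2, hn.2⟩
      _ ≤ _ := (card_union_le _ _).trans (by rw [card_range])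
  have h4' : (((Icc 1 x).filter (fun n => P n ∧ R n)).card : ℝ) ≤ ((Icc 1 X).filter (fun n => R n)).card + n0 := by exact_mod_cast h4
  have h5' : (((Icc 1 X).filter (fun n => R n)).card : ℝ) ≤ ((Icc 1 x).filter (fun n => P n ∧ R n)).card + n0 := by exact_mod_cast h5
  rw [abs_le]
  constructor <;> linarith

end Pool.Agent.H373R2.T7.TB
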