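import Mathlib
import Pool.Agent.H49.G.R_seed8.H373R2.T7.PB1
import Pool.Agent.H49.G.R_seed8.H373R2.T7.FundC

/-! `p` and `N - G(p)` prime, `F_1(p), ..., F_g(p)` without small prime factors, for almost all `N`: the theorem. -/

namespace Pool.Agent.H373R2.T7.PB
open Finset Polynomial TB

variable {g : ℕ}

open Classical in
/-- the weighted number of primes `p ≤ x` such that `N - G(p)` is prime and the `F_i(p)` have no prime factor `≤ y` -/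
noncomputable def WP (F : Fin g → ℤ[X]) (G : ℤ[X]) (N y x : ℕ) : ℝ :=
  ∑ p ∈ (Icc 1 x).filter (fun p : ℕ => p.Prime ∧ ((N : ℤ) - G.eval (p : ℤ)).toNat.Prime ∧ Rough F y p),
    Real.log p * Real.log (((N : ℤ) - G.eval (p : ℤ) : ℤ) : ℝ)

/-- the expected value -/
noncomputable def TP (F : Fin g → ℤ[X]) (G : ℤ[X]) (N z y x : ℕ) : ℝ :=
  SHN.XCount G N x * (∏ p ∈ (Icc 1 y).filter Nat.Prime, (1 - 1 / (p : ℝ)))⁻¹ *
    (∏ p ∈ (Icc 1 z).filter Nat.Prime, (1 - (omegaN (PArg.eF F) G N p : ℝ) / p) / (1 - 1 / (p : ℝ))) *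
    ∏ p ∈ (Ioc z y).filter Nat.Prime, (1 - (omegaF (PArg.eF F) p : ℝ) / p)

lemma WP_eq (F : Fin g → ℤ[X]) (G : ℤ[X]) (N y x : ℕ) :
    WP F G N y x = ∑ n ∈ Icc 1 x, (lamP (n : ℤ) * rw1 F y n) * lamP ((N : ℤ) - G.eval (n : ℤ)) := by
  unfold WP
  rw [sum_filter]
  apply sum_congr rfl
  intro n _
  by_cases h1 : n.Prime
  · by_cases h2 : ((N : ℤ) - G.eval (n : ℤ)).toNat.Prime
    · by_cases h3 : Rough F y n
      · rw [if_pos ⟨h1, h2, h3⟩]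
        obtain ⟨h4, h5⟩ := lamP_prime _ h2
        rw [h4]
        have h6 : lamP (n : ℤ) = Real.log n := by
          unfold lamP
          rw [Int.toNat_natCast, if_pos h1]
        unfold rw1
        rw [h6, if_pos h3, mul_one]
      · rw [if_neg (fun h => h3 h.2.2)]
        unfold rw1
        rw [if_neg h3]
        ring
    · rw [if_neg (fun h => h2 h.2.1)]
      have h4 : lamP ((N : ℤ) - G.eval (n : ℤ)) = 0 := by
        unfold lamP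
        rw [if_neg h2]
      rw [h4, mul_zero]
  · rw [if_neg (fun h => h1 h.1)]
    have h6 : lamP (n : ℤ) = 0 := by
      unfold lamP
      rw [Int.toNat_natCast, if_neg h1]
    rw [h6]
    ring

lemma TP_eq (F : Fin g → ℤ[X]) (G : ℤ[X]) (N z y x : ℕ) (hzy : z ≤ y) :
    TP F G N z y x = (Vz z)⁻¹ * (∏ p ∈ pz y, (1 - (rhoA (Qc F G N z) p : ℝ) / (p - 1 : ℝ))) * SHN.XCount G N x := by
  rw [prod_eq]
  have h := prod_split (PArg.eF F) G N z y hzy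
  have e : (∏ p ∈ (Icc 1 y).filter Nat.Prime, (1 - 1 / (p : ℝ)))⁻¹ = (Vz y)⁻¹ := rfl
  unfold TP
  rw [e]
  calc _ = SHN.XCount G N x * (Vz y)⁻¹ * ((∏ p ∈ (Icc 1 z).filter Nat.Prime, (1 - (omegaN (PArg.eF F) G N p : ℝ) / p) / (1 - 1 / (p : ℝ))) *
        ∏ p ∈ (Ioc z y).filter Nat.Prime, (1 - (omegaF (PArg.eF F) p : ℝ) / p)) := by ring
    _ = _ := by rw [← h]; ring

open Classical in
/-- the model against its expected value -/
lemma model_asymP (F : Fin g → ℤ[X]) (G : ℤ[X]) (N z y x n0 : ℕ) (hzy : z ≤ y) (hx : 1 ≤ x) (X : ℕ) (hX : X ≤ x)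
    (hseg : ∀ n ∈ Icc n0 x, (1 ≤ (N : ℤ) - G.eval (n : ℤ) ↔ n ≤ X)) (δ r L : ℝ) (hL : Real.log x = L) (hL1 : 1 ≤ L) (hδ : 0 ≤ δ) (hδ1 : δ ≤ 1)
    (hf : |∑ n ∈ (Icc 1 X).filter (fun n : ℕ => ∀ p ∈ pz y, ¬ Qc F G N z p n), ArithmeticFunction.vonMangoldt n -
      X * ∏ p ∈ pz y, (1 - (rhoA (Qc F G N z) p : ℝ) / (p - 1 : ℝ))| ≤
      δ * (X * ∏ p ∈ pz y, (1 - (rhoA (Qc F G N z) p : ℝ) / (p - 1 : ℝ))) + r) :
    |∑ n ∈ Icc 1 x, (lamP (n : ℤ) * rw1 F y n) * lamzI z ((N : ℤ) - G.eval (n : ℤ)) -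
      (Vz z)⁻¹ * (∏ p ∈ pz y, (1 - (rhoA (Qc F G N z) p : ℝ) / (p - 1 : ℝ))) * SHN.XCount G N x| ≤
      δ * ((Vz z)⁻¹ * (∏ p ∈ pz y, (1 - (rhoA (Qc F G N z) p : ℝ) / (p - 1 : ℝ))) * SHN.XCount G N x) +
        (Vz z)⁻¹ * ((3 * n0 + 2 * √(x : ℝ)) * L + r) := by
  have e0 : ∑ n ∈ Icc 1 x, (lamP (n : ℤ) * rw1 F y n) * lamzI z ((N : ℤ) - G.eval (n : ℤ)) =
      (Vz z)⁻¹ * ∑ n ∈ (Icc 1 x).filter (fun n : ℕ => 1 ≤ (N : ℤ) - G.eval (n : ℤ) ∧ ∀ p ∈ pz y, ¬ Qc F G N z p n), lamP (n : ℤ) := by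
    rw [sum_filter, mul_sum]
    apply sum_congr rfl
    intro n _
    rw [mul_assoc, rw_model F G N z y n hzy]
    split_ifs <;> ring
  rw [e0]
  obtain ⟨Pq, hPq⟩ : ∃ Pq, Pq = ∏ p ∈ pz y, (1 - (rhoA (Qc F G N z) p : ℝ) / (p - 1 : ℝ)) := ⟨_, rfl⟩
  have hPq0 : 0 ≤ Pq := by rw [hPq]; exact prod_nonneg fun p hp => (facA _ p (mem_pz.1 hp).2).1
  have hPq1 : Pq ≤ 1 := by
    rw [hPq]
    exact prod_le_one (fun p hp => (facA _ p (mem_pz.1 hp).2).1) (fun p hp => (facA _ p (mem_pz.1 hp).2).2)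
  rw [← hPq] at hf ⊢
  have hV0 : 0 ≤ (Vz z)⁻¹ := (inv_pos.2 (Vz_pos z)).le
  have hlam : ∀ n ∈ Icc 1 x, lamP (n : ℤ) ≤ L := by
    intro n hn
    rw [mem_Icc] at hn
    unfold lamP
    rw [Int.toNat_natCast, ← hL]
    split_ifs
    · exact Real.log_le_log (by exact_mod_cast hn.1) (by exact_mod_cast hn.2)
    · rw [hL]; linarith
  have s1 := seg_sum (fun n => lamP (n : ℤ)) L (fun n : ℕ => 1 ≤ (N : ℤ) - G.eval (n : ℤ)) (fun n => ∀ p ∈ pz y, ¬ Qc F G N z p n) n0 x X hX hseg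
    (fun n _ => lamP_nonneg _) hlam (by linarith)
  have s3 := swap_lam X x hX hx (fun n => ∀ p ∈ pz y, ¬ Qc F G N z p n)
  have s2 := seg_card (fun n : ℕ => 1 ≤ (N : ℤ) - G.eval (n : ℤ)) (fun _ => True) n0 x X hX hseg
  have e1 : ((Icc 1 x).filter (fun n : ℕ => 1 ≤ (N : ℤ) - G.eval (n : ℤ) ∧ True)).card = SHN.XCount G N x := by
    unfold SHN.XCount
    congr 1
    apply filter_congr
    intro n _
    rw [and_true]
    omega
  have e2 : ((Icc 1 X).filter (fun _ => True)).card = X := by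
    rw [filter_true, Nat.card_Icc, Nat.add_sub_cancel]
  have s2' : |(((Icc 1 x).filter (fun n : ℕ => 1 ≤ (N : ℤ) - G.eval (n : ℤ) ∧ True)).card : ℝ) - ((Icc 1 X).filter (fun _ => True)).card| ≤ n0 := by
    convert s2
  rw [e1, e2] at s2'
  clear s2
  rw [hL] at s3
  have s1' : |∑ n ∈ (Icc 1 x).filter (fun n : ℕ => 1 ≤ (N : ℤ) - G.eval (n : ℤ) ∧ ∀ p ∈ pz y, ¬ Qc F G N z p n), lamP (n : ℤ) -
      ∑ n ∈ (Icc 1 X).filter (fun n : ℕ => ∀ p ∈ pz y, ¬ Qc F G N z p n), lamP (n : ℤ)| ≤ n0 * L := by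
    convert s1
  clear s1
  have s3' : |∑ n ∈ (Icc 1 X).filter (fun n : ℕ => ∀ p ∈ pz y, ¬ Qc F G N z p n), lamP (n : ℤ) -
      ∑ n ∈ (Icc 1 X).filter (fun n : ℕ => ∀ p ∈ pz y, ¬ Qc F G N z p n), ArithmeticFunction.vonMangoldt n| ≤ 2 * √(x : ℝ) * L := by
    convert s3
  clear s3
  generalize ∑ n ∈ (Icc 1 x).filter (fun n : ℕ => 1 ≤ (N : ℤ) - G.eval (n : ℤ) ∧ ∀ p ∈ pz y, ¬ Qc F G N z p n), lamP (n : ℤ) = c1 at *
  generalize ∑ n ∈ (Icc 1 X).filter (fun n : ℕ => ∀ p ∈ pz y, ¬ Qc F G N z p n), lamP (n : ℤ) = c2 at *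
  generalize ∑ n ∈ (Icc 1 X).filter (fun n : ℕ => ∀ p ∈ pz y, ¬ Qc F G N z p n), ArithmeticFunction.vonMangoldt n = c3 at *
  generalize (SHN.XCount G N x : ℝ) = Xc at *
  have hn0 : (0 : ℝ) ≤ n0 := Nat.cast_nonneg _
  have key : |c1 - Pq * Xc| ≤ δ * (Pq * Xc) + ((3 * n0 + 2 * √(x : ℝ)) * L + r) := by
    have e3 : c1 - Pq * Xc = (c1 - c2) + (c2 - c3) + (c3 - X * Pq) + (X - Xc) * Pq := by ring
    rw [e3]
    have h1 : |(X - Xc) * Pq| ≤ n0 := by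
      rw [abs_mul, abs_of_nonneg hPq0, abs_sub_comm]
      calc |Xc - X| * Pq ≤ n0 * 1 := mul_le_mul s2' hPq1 hPq0 hn0
        _ = n0 := mul_one _
    have h2 : δ * (X * Pq) ≤ δ * (Pq * Xc) + n0 := by
      have h3 := (abs_le.1 s2').1
      have h4 : (X : ℝ) * Pq ≤ Pq * Xc + n0 := by nlinarith
      have h5 := mul_le_mul_of_nonneg_left h4 hδ
      nlinarith
    have h3 : (n0 : ℝ) ≤ n0 * L := le_mul_of_one_le_right hn0 hL1
    refine (abs_add_le _ _).trans ?_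
    have h6 := abs_add_le ((c1 - c2) + (c2 - c3)) (c3 - X * Pq)
    have h7 := abs_add_le (c1 - c2) (c2 - c3)
    nlinarith
  have e4 : (Vz z)⁻¹ * c1 - (Vz z)⁻¹ * Pq * Xc = (Vz z)⁻¹ * (c1 - Pq * Xc) := by ring
  rw [e4, abs_mul, abs_of_nonneg hV0]
  calc (Vz z)⁻¹ * |c1 - Pq * Xc| ≤ (Vz z)⁻¹ * (δ * (Pq * Xc) + ((3 * n0 + 2 * √(x : ℝ)) * L + r)) := mul_le_mul_of_nonneg_left key hV0
    _ = _ := by ring

lemma num_V2 (V L x : ℝ) (n0 U' : ℕ) (hx : 2 ≤ x) (hL : 1 ≤ L) (hV : V ≤ L) (hV0 : 0 ≤ V)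
    (a5 : (3 * n0 + 2) * L ^ (2 + U') ≤ √x) : V * ((3 * n0 + 2 * √x) * L + x / L ^ (U' + 1)) ≤ 2 * (x / L ^ U') := by
  have hs1 : 1 ≤ √x := by
    rw [show (1 : ℝ) = √1 by simp]
    exact Real.sqrt_le_sqrt (by linarith)
  have hn0r : (0 : ℝ) ≤ n0 := Nat.cast_nonneg _
  have hL0 : 0 < L := by linarith
  have h1 : 3 * n0 + 2 * √x ≤ (3 * n0 + 2) * √x := by nlinarith
  have h2 : V * ((3 * n0 + 2 * √x) * L) ≤ x / L ^ U' := by
    rw [le_div_iff₀ (by positivity)]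
    calc V * ((3 * n0 + 2 * √x) * L) * L ^ U' ≤ L * (((3 * n0 + 2) * √x) * L) * L ^ U' := by
          apply mul_le_mul_of_nonneg_right _ (by positivity)
          apply mul_le_mul hV _ (by positivity) hL0.le
          exact mul_le_mul_of_nonneg_right h1 hL0.le
      _ = ((3 * n0 + 2) * L ^ (2 + U')) * √x := by rw [pow_add]; ring
      _ ≤ √x * √x := mul_le_mul_of_nonneg_right a5 (Real.sqrt_nonneg _)
      _ = x := Real.mul_self_sqrt (by linarith)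
  have h3 : V * (x / L ^ (U' + 1)) ≤ x / L ^ U' := by
    calc V * (x / L ^ (U' + 1)) ≤ L * (x / L ^ (U' + 1)) := mul_le_mul_of_nonneg_right hV (by positivity)
      _ = x / L ^ U' := by rw [pow_succ]; field_simp
  calc _ = V * ((3 * n0 + 2 * √x) * L) + V * (x / L ^ (U' + 1)) := by ring
    _ ≤ _ := by linarith

/-- the conclusion for a single `N` -/
lemma pointP (W Wm V Pq Xc x L δ ε c0 : ℝ) (n0 C2 U : ℕ) (hx : 2 ≤ x) (hL : 4 ≤ L) (hδ : 0 < δ) (hε : 0 < ε) (hc0 : 0 < c0)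
    (hd1 : 3 ≤ δ * c0 * ε * L) (hV : V ≤ L) (hV0 : 0 ≤ V) (a5 : (3 * n0 + 2) * L ^ (2 + (U + C2 + 4)) ≤ √x)
    (hlow : c0 / L ^ C2 ≤ V * Pq) (hmod : |Wm - V * Pq * Xc| ≤ δ * (V * Pq * Xc) + V * ((3 * n0 + 2 * √x) * L + x / L ^ ((U + C2 + 4) + 1)))
    (g1 : |W - Wm| ≤ x / L ^ (U + C2 + 4)) (hXε : ε * x ≤ Xc) : |W - V * Pq * Xc| ≤ 2 * δ * (V * Pq * Xc) := by
  have hx0 : 0 < x := by linarith
  have hL0 : 0 < L := by linarith
  have hTlow : c0 * ε * x / L ^ C2 ≤ V * Pq * Xc := by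
    calc c0 * ε * x / L ^ C2 = c0 / L ^ C2 * (ε * x) := by ring
      _ ≤ (V * Pq) * Xc := mul_le_mul hlow hXε (by positivity) (le_trans (by positivity) hlow)
  have hKe := num_T c0 ε x L δ 3 (V * Pq * Xc) C2 U hδ hc0 hε hx0 (by linarith) hTlow hd1
  have h6 := num_V2 V L x n0 (U + C2 + 4) hx (by linarith) hV hV0 a5
  have he0 : 0 < x / L ^ (U + C2 + 4) := by positivity
  have h7 : 3 * (x / L ^ (U + C2 + 4)) ≤ 3 * L * (x / L ^ (U + C2 + 4)) := by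
    apply mul_le_mul_of_nonneg_right _ he0.le
    linarith
  have e3 : W - V * Pq * Xc = (W - Wm) + (Wm - V * Pq * Xc) := by ring
  rw [e3]
  refine (abs_add_le _ _).trans ?_
  linarith

open Classical in
theorem pb_main (D : ℕ) (ε : ℝ) (hε : 0 < ε) : ∃ K : ℕ, 1 ≤ K ∧
    ∀ (g : ℕ) (F : Fin g → ℤ[X]), (∀ i, 1 ≤ (F i).natDegree) → (∀ i, 0 < (F i).leadingCoeff) →
    ∀ G : ℤ[X], 1 ≤ G.natDegree → 0 < G.leadingCoeff → ∑ i, (F i).natDegree + G.natDegree ≤ D →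
    ∀ (B U : ℕ) (κ : ℝ), 1 ≤ B → 0 < κ →
    ∃ B0 : ℕ, ∀ E : ℕ, ∃ x0 : ℕ, ∀ x : ℕ, x0 ≤ x → ∀ M : ℕ, M ≤ B * x ^ G.natDegree → x ^ G.natDegree ≤ B * M →
      ∀ z y : ℕ, Real.log x ^ B0 ≤ z → (z : ℝ) ≤ Real.log x ^ E → z ≤ y → y ^ K ≤ x →
      (((Icc 1 M).filter (fun N : ℕ => ¬ (NoFixed (PArg.eF F) G N → κ * x ≤ SHN.XCount G N x →
        |WP F G N y x - TP F G N z y x| ≤ ε * TP F G N z y x))).card : ℝ) ≤ M / Real.log x ^ U := by
  obtain ⟨δ, hδd⟩ : ∃ δ : ℝ, δ = (min ε 1) / 2 := ⟨_, rfl⟩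
  have hmin : 0 < min ε 1 := lt_min hε one_pos
  have hmin1 : min ε 1 ≤ 1 := min_le_right _ _
  have hδ : 0 < δ := by rw [hδd]; positivity
  have hδ1 : δ ≤ 1 := by rw [hδd]; linarith
  obtain ⟨K, hK1, hfund'⟩ := lam_fund (D + 1) (by omega) δ hδ
  refine ⟨K, hK1, fun g F hF hFl G hG hGl hD B U κ hB hκ => ?_⟩
  obtain ⟨c0, C2, N2, hc0, hlowT⟩ := main_lowP F hF hFl G hG hGl
  obtain ⟨xs, hfund⟩ := hfund' ((U + C2 + 4) + 1)
  obtain ⟨n0, hn0, hseg⟩ := seg_one G hG hGl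
  obtain ⟨B0, hB0⟩ := l1_one G hG hGl B hB ((U + C2 + 4) + U)
  refine ⟨B0 + 1, fun E => ?_⟩
  obtain ⟨n1, h1⟩ := hB0 E
  obtain ⟨n2a, h2a⟩ := ev_L' 4
  obtain ⟨n2b, h2b⟩ := ev_L' (3 / (δ * c0 * κ))
  obtain ⟨n2e, h2e⟩ := ev_L' (xs + N2)
  obtain ⟨n4, h4⟩ := Vz_inv_small E
  obtain ⟨n5, h5⟩ := ev_log' (2 + (U + C2 + 4)) (3 * n0 + 2)
  refine ⟨n1 + n2a + n2b + n2e + n4 + n5 + 2, fun x hx M hM1 hM2 z y hz1 hz2 hzy hyK => ?_⟩
  have hL4 := h2a x (by omega)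
  have hLb := h2b x (by omega)
  have hLe := h2e x (by omega)
  have a5 := h5 x (by omega)
  have hl1 := h1 x (by omega) M hM1 hM2 z
  have hVz := h4 x (by omega) z
  have hx2 : 2 ≤ x := by omega
  have hlowT' := fun N => hlowT N z y x
  clear h1 h2a h2b h2e h4 h5 hx hB0 hlowT
  have hfund2 := fun Q hQ X hX => hfund x y (by
    have hzL : Real.log x ≤ z := by
      refine le_trans ?_ hz1
      calc Real.log x = Real.log x ^ 1 := (pow_one _).symm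
        _ ≤ Real.log x ^ (B0 + 1) := pow_le_pow_right₀ (by linarith) (by omega)
    have hyr : Real.log x ≤ y := hzL.trans (by exact_mod_cast hzy)
    have h6 : (0 : ℝ) ≤ N2 := Nat.cast_nonneg _
    have : (xs : ℝ) ≤ y := by linarith
    exact_mod_cast this) hyK Q hQ X hX
  clear hfund hfund'
  generalize hLx : Real.log (x : ℝ) = L at *
  have hx0 : (0 : ℝ) < x := by exact_mod_cast (by omega : 0 < x)
  have hL0 : 0 < L := by linarith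
  have hL1 : 1 ≤ L := by linarith
  have hz1' : L ^ B0 ≤ z := le_trans (pow_le_pow_right₀ hL1 (by omega)) hz1
  have hzL : L ≤ z := by
    refine le_trans ?_ hz1
    calc L = L ^ 1 := (pow_one _).symm
      _ ≤ L ^ (B0 + 1) := pow_le_pow_right₀ hL1 (by omega)
  have hz : 1 ≤ z := by
    have : (1 : ℝ) ≤ z := hL1.trans hzL
    exact_mod_cast this
  have hyr : L ≤ y := hzL.trans (by exact_mod_cast hzy)
  have hN2 : N2 ≤ y := by
    have h6 : (0 : ℝ) ≤ xs := Nat.cast_nonneg _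
    have : (N2 : ℝ) ≤ y := by linarith
    exact_mod_cast this
  have hyx : y ≤ x := by
    calc y = y ^ 1 := (pow_one _).symm
      _ ≤ y ^ K := Nat.pow_le_pow_right (hz.trans hzy) hK1
      _ ≤ x := hyK
  have hV := hVz hz hz2
  have hV0 : 0 ≤ (Vz z)⁻¹ := (inv_pos.2 (Vz_pos z)).le
  have hlam : ∀ n ∈ Icc 1 x, |lamP (n : ℤ) * rw1 F y n| ≤ L := by
    intro n hn
    rw [mem_Icc] at hn
    rw [abs_of_nonneg (mul_nonneg (lamP_nonneg _) (rw1_nonneg F y n))]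
    have h6 : lamP (n : ℤ) ≤ L := by
      unfold lamP
      rw [Int.toNat_natCast, ← hLx]
      split_ifs
      · exact Real.log_le_log (by exact_mod_cast hn.1) (by exact_mod_cast hn.2)
      · rw [hLx]; linarith
    calc lamP (n : ℤ) * rw1 F y n ≤ lamP (n : ℤ) * 1 := mul_le_mul_of_nonneg_left (rw1_le F y n) (lamP_nonneg _)
      _ ≤ L := by rw [mul_one]; exact h6
  have hl1' := hl1 hz1' hz2 (fun n => lamP (n : ℤ) * rw1 F y n) hlam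
  have he0 : 0 < (x : ℝ) / L ^ (U + C2 + 4) := by positivity
  have hcard := markov (Icc 1 M) (fun N => |∑ n ∈ Icc 1 x, (lamP (n : ℤ) * rw1 F y n) * (lamP ((N : ℤ) - G.eval (n : ℤ)) - lamzI z ((N : ℤ) - G.eval (n : ℤ)))|)
    (fun N _ => abs_nonneg _) ((x : ℝ) / L ^ (U + C2 + 4)) (M / L ^ U) he0 (by
      refine hl1'.trans (le_of_eq ?_)
      rw [pow_add]
      field_simp)
  refine le_trans ?_ hcard
  have hd1 : 3 ≤ δ * c0 * κ * L := by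
    rw [div_le_iff₀ (by positivity)] at hLb
    linarith
  have hfin : ((Icc 1 M).filter (fun N : ℕ => ¬ (NoFixed (PArg.eF F) G N → κ * x ≤ SHN.XCount G N x →
        |WP F G N y x - TP F G N z y x| ≤ ε * TP F G N z y x))).card ≤
      ((Icc 1 M).filter (fun N : ℕ => (x : ℝ) / L ^ (U + C2 + 4) < |∑ n ∈ Icc 1 x, (lamP (n : ℤ) * rw1 F y n) * (lamP ((N : ℤ) - G.eval (n : ℤ)) - lamzI z ((N : ℤ) - G.eval (n : ℤ)))|)).card := by
    apply card_le_card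
    intro N hN
    rw [mem_filter] at hN
    obtain ⟨hN, hbad⟩ := hN
    by_contra hNS
    apply hbad
    intro hNF hXε
    rw [mem_filter, not_and, not_lt] at hNS
    have g1 := hNS hN
    have hN' := mem_Icc.1 hN
    obtain ⟨X', hX', hX'2⟩ := hseg N hN'.1 x
    have hPer := perA_of F hF hFl G hG hGl N z hNF (D + 1) (by omega)
    have hfd := hfund2 (Qc F G N z) hPer X' hX'
    have hmod := model_asymP F G N z y x n0 hzy (by omega) X' hX' hX'2 δ (x / L ^ ((U + C2 + 4) + 1)) L hLx hL1 hδ.le hδ1 hfd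
    have hsum : ∑ n ∈ Icc 1 x, (lamP (n : ℤ) * rw1 F y n) * (lamP ((N : ℤ) - G.eval (n : ℤ)) - lamzI z ((N : ℤ) - G.eval (n : ℤ))) =
        ∑ n ∈ Icc 1 x, (lamP (n : ℤ) * rw1 F y n) * lamP ((N : ℤ) - G.eval (n : ℤ)) - ∑ n ∈ Icc 1 x, (lamP (n : ℤ) * rw1 F y n) * lamzI z ((N : ℤ) - G.eval (n : ℤ)) := by
      rw [← sum_sub_distrib]
      apply sum_congr rfl
      intro n _
      ring
    rw [hsum] at g1
    have hp := pointP _ _ _ _ _ x L δ κ c0 n0 C2 U (by exact_mod_cast hx2) hL4 hδ hκ hc0 hd1 hV hV0 a5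
      (hlowT' N hN2 hyx hNF) hmod g1 hXε
    rw [WP_eq, TP_eq F G N z y x hzy]
    refine hp.trans ?_
    have h5δ : 2 * δ = min ε 1 := by rw [hδd]; ring
    rw [h5δ] at hp ⊢
    have h7 := (abs_nonneg _).trans hp
    exact mul_le_mul_of_nonneg_right (min_le_left _ _) (nonneg_of_mul_nonneg_right h7 hmin)
  exact_mod_cast hfin

end Pool.Agent.H373R2.T7.PB
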